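import Pool.Agent.Lib.MP_b07157_agQH.Fin
import Pool.Agent.Lib.MP_b07157_agCS.N1

/-!
# Affine coordinates and coverings
-/

noncomputable section

namespace MPb07157

open MvPolynomial

namespace QH

variable {M : Matrix (Fin 3) (Fin 3) ℂ} {p₀ : Fin 3 → ℂ}

theorem eval_ac (M : Matrix (Fin 3) (Fin 3) ℂ) (p₀ x : Fin 3 → ℂ) (i : Fin 3) :
    eval x (QG.ac M p₀ i) = M.mulVec (x - p₀) i := by
  simp only [QG.ac, map_sum, map_mul, map_sub, eval_C, eval_X]
  rfl

theorem eval_aeval_ac (x : Fin 3 → ℂ) (G : MvPolynomial (Fin 3) ℂ) :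
    eval x (aeval (QG.ac M p₀) G) = eval (M.mulVec (x - p₀)) G := by
  have h2 : ((aeval x : MvPolynomial (Fin 3) ℂ →ₐ[ℂ] ℂ).comp (aeval (QG.ac M p₀))) G =
      aeval (fun b => aeval x (QG.ac M p₀ b)) G := by
    rw [comp_aeval]
  have h3 : (fun b => aeval x (QG.ac M p₀ b)) = M.mulVec (x - p₀) := by
    funext b
    exact eval_ac M p₀ x b
  rw [h3] at h2
  exact h2

theorem translate_ac (x : Fin 3 → ℂ) (g : MvPolynomial (Fin 3) ℂ) :
    translate x (aeval (QG.ac M p₀) g) =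
      aeval (LC.subM M) (translate (M.mulVec (x - p₀)) g) := by
  refine MvPolynomial.funext fun z => ?_
  rw [D5.eval_translate', eval_aeval_ac, LC.eval_subM, D5.eval_translate', ← Matrix.mulVec_add,
    add_sub_assoc]

theorem aeval_subM_eq_zero (hM : M.det ≠ 0) {g : MvPolynomial (Fin 3) ℂ} :
    aeval (LC.subM M) g = 0 ↔ g = 0 := by
  constructor
  · intro h
    by_contra h0
    exact subM_ne_zero M hM h0 h
  · rintro rfl
    rw [map_zero]

theorem mem_Tr_ac (hM : M.det ≠ 0) (p₀ : Fin 3 → ℂ)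
    (g : MvPolynomial (Fin 3) ℂ) (x : Fin 3 → ℂ) :
    x ∈ QG.Tr (aeval (QG.ac M p₀) g) ↔ M.mulVec (x - p₀) ∈ QG.Tr g := by
  show T3 _ _ ↔ T3 _ _
  rw [t3_iff, t3_iff]
  simp only [translate_ac, homogeneousComponent_subM, aeval_subM_eq_zero hM]

theorem coeff_step {n : ℕ} {F : MvPolynomial (Fin n) ℂ} {v : Fin n →₀ ℕ} {d : ℕ}
    (hv : coeff v F ≠ 0) (hd : v.degree = d + 1) :
    ∃ (i : Fin n) (w : Fin n →₀ ℕ), coeff w (pderiv i F) ≠ 0 ∧ w.degree = d := by
  classical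
  obtain ⟨i, hi⟩ : ∃ i, v i ≠ 0 := by
    by_contra hcon
    push Not at hcon
    have h0 : v = 0 := Finsupp.ext hcon
    rw [h0, map_zero] at hd
    omega
  obtain ⟨w, hw⟩ : ∃ w : Fin n →₀ ℕ, v = w + Finsupp.single i 1 := by
    refine ⟨v - Finsupp.single i 1, ?_⟩
    rw [tsub_add_cancel_of_le]
    exact Finsupp.single_le_iff.2 (Nat.one_le_iff_ne_zero.2 hi)
  refine ⟨i, w, ?_, ?_⟩
  · rw [coeff_pderiv, ← hw]
    exact mul_ne_zero hv (by exact_mod_cast Nat.succ_ne_zero (w i))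
  · rw [hw, map_add, Finsupp.degree_single] at hd
    omega

theorem third_iff {f : MvPolynomial (Fin 3) ℂ} {p : Fin 3 → ℂ} :
    (∃ i j k, eval p (pderiv i (pderiv j (pderiv k f))) ≠ 0) ↔
      homogeneousComponent 3 (translate p f) ≠ 0 := by
  constructor
  · rintro ⟨i, j, k, h⟩ h3
    apply h
    have hc : ∀ v : Fin 3 →₀ ℕ, v.degree = 3 → coeff v (translate p f) = 0 := by
      intro v hv
      have h1 : coeff v (homogeneousComponent 3 (translate p f)) = 0 := by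
        rw [h3, coeff_zero]
      rwa [coeff_homogeneousComponent, if_pos hv] at h1
    rw [← SE3.coeff_zero_tr, ← pderiv_translate, ← pderiv_translate, ← pderiv_translate,
      coeff_pderiv, coeff_pderiv, coeff_pderiv, hc, zero_mul, zero_mul, zero_mul]
    rw [map_add, map_add, map_add, map_zero, Finsupp.degree_single, Finsupp.degree_single,
      Finsupp.degree_single]
  · intro h
    obtain ⟨v, hv⟩ := exists_coeff_ne_zero h
    rw [coeff_homogeneousComponent] at hv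
    have hd : v.degree = 2 + 1 := by
      by_contra hne
      rw [if_neg hne] at hv
      exact hv rfl
    rw [if_pos hd] at hv
    obtain ⟨k, w, hw, hwd⟩ := coeff_step hv hd
    obtain ⟨j, u, hu, hud⟩ := coeff_step hw (d := 1) hwd
    obtain ⟨i, s, hs, hsd⟩ := coeff_step hu (d := 0) hud
    refine ⟨i, j, k, ?_⟩
    rw [(Finsupp.degree_eq_zero_iff s).1 hsd] at hs
    rw [← SE3.coeff_zero_tr, ← pderiv_translate, ← pderiv_translate, ← pderiv_translate]
    exact hs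

theorem exists_point (hM : M.det ≠ 0) (p₀ y : Fin 3 → ℂ) : ∃ x, M.mulVec (x - p₀) = y :=
  ⟨M⁻¹.mulVec y + p₀, by rw [add_sub_cancel_right, Matrix.mulVec_mulVec,
    Matrix.mul_nonsing_inv _ (isUnit_iff_ne_zero.2 hM), Matrix.one_mulVec]⟩

theorem noQ_ac (hM : M.det ≠ 0) {g : MvPolynomial (Fin 3) ℂ}
    (h : QG.NoQ (aeval (QG.ac M p₀) g)) : QG.NoQ g := by
  intro y hy
  obtain ⟨x, rfl⟩ := exists_point hM p₀ y
  have h1 := third_iff.1 (h x ((mem_Tr_ac hM p₀ g x).2 hy))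
  rw [third_iff]
  intro h3
  apply h1
  rw [translate_ac, homogeneousComponent_subM, h3, map_zero]

theorem smcLoc_subM (hM : M.det ≠ 0) {g : MvPolynomial (Fin 3) ℂ} :
    SmcLoc (aeval (LC.subM M) g) ↔ SmcLoc g := by
  have hu : IsUnit M.det := isUnit_iff_ne_zero.2 hM
  let e : (Fin 3 → ℂ) ≃ₗ[ℂ] (Fin 3 → ℂ) :=
    Matrix.toLin'OfInv (Matrix.nonsing_inv_mul _ hu) (Matrix.mul_nonsing_inv _ hu)
  have he : ∀ x, e x = M.mulVec x := fun x => by
    show Matrix.toLin' M x = _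
    rw [Matrix.toLin'_apply]
  constructor
  · intro h
    refine CS.LinEq.smcLoc ⟨e, fun w => ?_⟩ h
    rw [LC.eval_subM, he]
  · intro h
    refine CS.LinEq.smcLoc ⟨e.symm, fun w => ?_⟩ h
    rw [LC.eval_subM, ← he, LinearEquiv.apply_symm_apply]

theorem loc_ac (hM : M.det ≠ 0) {g : MvPolynomial (Fin 3) ℂ}
    (h : QG.Loc (aeval (QG.ac M p₀) g)) : QG.Loc g := by
  intro y hy
  obtain ⟨x, rfl⟩ := exists_point hM p₀ y
  have h1 := h x ((mem_Tr_ac hM p₀ g x).2 hy)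
  rw [translate_ac] at h1
  exact (smcLoc_subM hM).1 h1

theorem pderiv_ac (l i : Fin 3) : pderiv l (QG.ac M p₀ i) = C (M i l) := by
  simp only [QG.ac, map_sum]
  rw [Finset.sum_eq_single l]
  · rw [Derivation.leibniz, pderiv_C, smul_zero, add_zero, map_sub, pderiv_X_self, pderiv_C,
      sub_zero, smul_eq_mul, mul_one]
  · intro j _ hj
    rw [Derivation.leibniz, pderiv_C, smul_zero, add_zero, map_sub,
      pderiv_X_of_ne hj, pderiv_C, sub_zero, smul_zero]
  · intro h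
    exact absurd (Finset.mem_univ l) h

theorem eval_pderiv_ac (x : Fin 3 → ℂ) (l : Fin 3) (g : MvPolynomial (Fin 3) ℂ) :
    eval x (pderiv l (aeval (QG.ac M p₀) g)) =
      ∑ i, eval (M.mulVec (x - p₀)) (pderiv i g) * M i l := by
  rw [CC.ConeS.pderiv_aeval, map_sum]
  refine Finset.sum_congr rfl fun i _ => ?_
  rw [map_mul, eval_aeval_ac, pderiv_ac, eval_C]

theorem linInd_ac (hM : M.det ≠ 0) {k : ℕ} {u : Fin k → MvPolynomial (Fin 3) ℂ}
    {x : Fin 3 → ℂ}
    (h : LinearIndependent ℂ fun (j : Fin k) (l : Fin 3) =>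
      eval (M.mulVec (x - p₀)) (pderiv l (u j))) :
    LinearIndependent ℂ fun (j : Fin k) (l : Fin 3) =>
      eval x (pderiv l (aeval (QG.ac M p₀) (u j))) := by
  have h1 : (fun (j : Fin k) (l : Fin 3) => eval x (pderiv l (aeval (QG.ac M p₀) (u j)))) =
      (Matrix.mulVecLin M.transpose) ∘ fun (j : Fin k) (l : Fin 3) =>
        eval (M.mulVec (x - p₀)) (pderiv l (u j)) := by
    funext j l
    rw [eval_pderiv_ac, Function.comp_apply, Matrix.mulVecLin_apply, Matrix.mulVec, dotProduct]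
    refine Finset.sum_congr rfl fun i _ => ?_
    rw [Matrix.transpose_apply, mul_comm]
  rw [h1]
  refine h.map' _ (LinearMap.ker_eq_bot.2 ?_)
  have h2 : IsUnit M.transpose := by
    rw [Matrix.isUnit_iff_isUnit_det, Matrix.det_transpose]
    exact isUnit_iff_ne_zero.2 hM
  exact Matrix.mulVec_injective_of_isUnit h2

theorem sqhAlong_ac (hM : M.det ≠ 0) {g : MvPolynomial (Fin 3) ℂ} {W : Set (Fin 3 → ℂ)} {k : ℕ}
    {w : Fin k → ℕ} {N : ℕ} (h : SqhAlong g W w N) :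
    SqhAlong (aeval (QG.ac M p₀) g) {x | M.mulVec (x - p₀) ∈ W} w N := by
  classical
  obtain ⟨hN, hw, a, u, G, hG, hs, hW⟩ := h
  refine ⟨hN, hw, aeval (QG.ac M p₀) a, fun j => aeval (QG.ac M p₀) (u j),
    map (aeval (QG.ac M p₀) : MvPolynomial (Fin 3) ℂ →ₐ[ℂ] MvPolynomial (Fin 3) ℂ).toRingHom G,
    ?_, ?_, ?_⟩
  · rw [← map_mul, hG, eval_map]
    have h1 := eval₂_comp_left
      (aeval (QG.ac M p₀) : MvPolynomial (Fin 3) ℂ →ₐ[ℂ] MvPolynomial (Fin 3) ℂ).toRingHom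
      (RingHom.id (MvPolynomial (Fin 3) ℂ)) u G
    rw [RingHom.comp_id] at h1
    exact h1
  · intro v hv
    exact hs v (support_map_subset _ _ hv)
  · intro x hx
    obtain ⟨e1, e2, e3, e4⟩ := hW _ hx
    refine ⟨by rw [eval_aeval_ac]; exact e1, fun j => by rw [eval_aeval_ac]; exact e2 j,
      linInd_ac hM e3, fun y hy => ?_⟩
    obtain ⟨j, hj⟩ := e4 y hy
    refine ⟨j, ?_⟩
    rw [map_map]
    have h5 : ((eval x).comp (aeval (QG.ac M p₀) :
        MvPolynomial (Fin 3) ℂ →ₐ[ℂ] MvPolynomial (Fin 3) ℂ).toRingHom) =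
        eval (M.mulVec (x - p₀)) := by
      refine RingHom.ext fun G => ?_
      exact eval_aeval_ac x G
    rw [h5]
    exact hj

theorem trivAlong_ac (hM : M.det ≠ 0) {g : MvPolynomial (Fin 3) ℂ} {W : Set (Fin 3 → ℂ)} {k : ℕ}
    {h : MvPolynomial (Fin k) ℂ} (ht : TrivAlong g W h) :
    TrivAlong (aeval (QG.ac M p₀) g) {x | M.mulVec (x - p₀) ∈ W} h := by
  obtain ⟨u, a, b, q, h1, hW⟩ := ht
  refine ⟨fun j => aeval (QG.ac M p₀) (u j), aeval (QG.ac M p₀) a, aeval (QG.ac M p₀) b,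
    aeval (QG.ac M p₀) q, fun x hx => ?_, fun x hx => ?_⟩
  · simp only [eval_aeval_ac] at hx ⊢
    exact h1 _ hx
  · obtain ⟨e1, e2, e3, e4, e5⟩ := hW _ hx
    refine ⟨by rw [eval_aeval_ac]; exact e1, by rw [eval_aeval_ac]; exact e2,
      by rw [eval_aeval_ac]; exact e3, fun j => by rw [eval_aeval_ac]; exact e4 j,
      linInd_ac hM e5⟩

theorem goodT_ac (hM : M.det ≠ 0) {g : MvPolynomial (Fin 3) ℂ} {W : Set (Fin 3 → ℂ)}
    (h : CC.GoodT g W) : CC.GoodT (aeval (QG.ac M p₀) g) {x | M.mulVec (x - p₀) ∈ W} := by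
  rcases h with (⟨m, w, N, h⟩ | ⟨y, rfl, h⟩) | ⟨m, h, h1, h2⟩
  · exact Or.inl (Or.inl ⟨m, w, N, sqhAlong_ac hM h⟩)
  · obtain ⟨x, rfl⟩ := exists_point hM p₀ y
    refine Or.inl (Or.inr ⟨x, ?_, fun h0 h1 => ?_⟩)
    · ext z
      constructor
      · intro hz
        have hz' : M.mulVec (z - p₀) = M.mulVec (x - p₀) := hz
        have h3 := Matrix.mulVec_injective_of_isUnit
          ((Matrix.isUnit_iff_isUnit_det _).2 (isUnit_iff_ne_zero.2 hM)) hz'
        exact sub_left_inj.1 h3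
      · intro hz
        rw [Set.mem_singleton_iff.1 hz]
        rfl
    · rw [translate_ac] at h0 h1 ⊢
      rw [smcLoc_subM hM]
      refine h (fun h3 => h0 (by rw [h3, map_zero])) ?_
      have h4 : eval 0 (aeval (LC.subM M) (translate (M.mulVec (x - p₀)) g)) =
          eval 0 (translate (M.mulVec (x - p₀)) g) := by
        rw [LC.eval_subM, Matrix.mulVec_zero]
      rw [SE3.coeff_zero_tr]
      rw [D5.eval_translate', zero_add] at h4
      rw [← h4]
      rw [← constantCoeff_eq] at h1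
      rw [← h1, constantCoeff_eq, ← SE3.coeff_zero_tr, show ∀ f : MvPolynomial (Fin 3) ℂ,
        translate 0 f = f from fun f => MvPolynomial.funext fun x => by
          rw [D5.eval_translate', add_zero]]
  · exact Or.inr ⟨m, h, h1, trivAlong_ac hM h2⟩

theorem cov_ac (hM : M.det ≠ 0) (p₀ : Fin 3 → ℂ)
    {g : MvPolynomial (Fin 3) ℂ} {S : Set (Fin 3 → ℂ)} (h : QG.Cov g S) :
    QG.Cov (aeval (QG.ac M p₀) g) {x | M.mulVec (x - p₀) ∈ S} := by
  obtain ⟨T, hT, hTW, hc⟩ := h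
  refine ⟨(fun W => {x | M.mulVec (x - p₀) ∈ W}) '' T, hT.image _, ?_, fun p hp => ?_⟩
  · rintro _ ⟨W, hW, rfl⟩
    obtain ⟨h1, h2⟩ := hTW W hW
    refine ⟨?_, goodT_ac hM h2⟩
    have h3 := h1.preimage (QG.ac M p₀)
    have h4 : (fun x : Fin 3 → ℂ => fun t => eval x (QG.ac M p₀ t)) ⁻¹' W =
        {x | M.mulVec (x - p₀) ∈ W} := by
      ext x
      show (fun t => eval x (QG.ac M p₀ t)) ∈ W ↔ _
      rw [show (fun t => eval x (QG.ac M p₀ t)) = M.mulVec (x - p₀) from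
        _root_.funext fun t => eval_ac M p₀ x t]
      rfl
    show IsConstr {x | M.mulVec (x - p₀) ∈ W}
    rw [← h4]
    exact h3
  · obtain ⟨W, hW, hpW⟩ := hc _ hp
    exact ⟨_, ⟨W, hW, rfl⟩, hpW⟩

end QH

end MPb07157
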