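import Pool.Agent.Lib.MP_b07157_agQH.Def

/-!
# Quartics with infinitely many triple points: the equations of the triple points
-/

noncomputable section

namespace MPb07157

open MvPolynomial

namespace QH

variable {m : Fin 3 → ℂ} {q : Fin 15 → ℂ} {p : Fin 3 → ℂ}

theorem T3.x0 (hm : m ≠ 0) (h : T3 (F m q) p) : p 0 = 0 := by
  obtain ⟨-, h1, h2⟩ := h
  have hx := h1 0
  have hy := h1 1
  have hz := h1 2
  have hxx := h2 0 0
  have hxy := h2 0 1
  have hxz := h2 0 2
  have hyy := h2 1 1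
  have hyz := h2 1 2
  have hzz := h2 2 2
  rw [E0] at hx
  rw [E1] at hy
  rw [E2] at hz
  rw [E00] at hxx
  rw [E01] at hxy
  rw [E02] at hxz
  rw [E11] at hyy
  rw [E12] at hyz
  rw [E22] at hzz
  by_contra hp
  have a1 : m 1 = 0 := by
    have : m 1 * p 0 ^ 2 = 0 := by
      linear_combination 3 * hy - p 0 * hxy - p 1 * hyy - p 2 * hyz
    rcases mul_eq_zero.1 this with h | h
    · exact h
    · exact absurd (pow_eq_zero_iff (two_ne_zero)|>.1 h) hp
  have a2 : m 2 = 0 := by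
    have : m 2 * p 0 ^ 2 = 0 := by
      linear_combination 3 * hz - p 0 * hxz - p 1 * hyz - p 2 * hzz
    rcases mul_eq_zero.1 this with h | h
    · exact h
    · exact absurd (pow_eq_zero_iff (two_ne_zero)|>.1 h) hp
  have a0 : m 0 = 0 := by
    have : m 0 * p 0 ^ 2 = 0 := by
      linear_combination (1 / 3 : ℂ) * (3 * hx - p 0 * hxx - p 1 * hxy - p 2 * hxz) -
        (2 / 3 : ℂ) * p 0 * p 1 * a1 - (2 / 3 : ℂ) * p 0 * p 2 * a2
    rcases mul_eq_zero.1 this with h | h
    · exact h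
    · exact absurd (pow_eq_zero_iff (two_ne_zero)|>.1 h) hp
  apply hm
  funext i
  fin_cases i
  · exact a0
  · exact a1
  · exact a2

/-- The quartic part is singular at the other triple points. -/
theorem T3.uv (hm : m ≠ 0) (h : T3 (F m q) p) :
    q 3 * p 1 ^ 3 + q 7 * p 1 ^ 2 * p 2 + q 10 * p 1 * p 2 ^ 2 + q 12 * p 2 ^ 3 = 0 ∧
    q 4 * p 1 ^ 4 + q 8 * p 1 ^ 3 * p 2 + q 11 * p 1 ^ 2 * p 2 ^ 2 + q 13 * p 1 * p 2 ^ 3 +
      q 14 * p 2 ^ 4 = 0 := by
  have h0 := h.x0 hm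
  obtain ⟨-, h1, h2⟩ := h
  have hx := h1 0
  have hy := h1 1
  have hz := h1 2
  have hxx := h2 0 0
  have hxy := h2 0 1
  have hxz := h2 0 2
  have hyy := h2 1 1
  have hyz := h2 1 2
  have hzz := h2 2 2
  rw [E0, h0] at hx
  rw [E1, h0] at hy
  rw [E2, h0] at hz
  rw [E00, h0] at hxx
  rw [E01, h0] at hxy
  rw [E02, h0] at hxz
  rw [E11, h0] at hyy
  rw [E12, h0] at hyz
  rw [E22, h0] at hzz
  constructor
  · linear_combination p 1 * hxy + p 2 * hxz - 2 * hx
  · linear_combination (1 / 4 : ℂ) * p 1 * hy + (1 / 4 : ℂ) * p 2 * hz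

/-- A polynomial with infinitely many roots. -/
theorem coef_zero {c : Fin 5 → ℂ} {S : Set ℂ} (hS : S.Infinite)
    (h : ∀ t ∈ S, c 0 + c 1 * t + c 2 * t ^ 2 + c 3 * t ^ 3 + c 4 * t ^ 4 = 0) : c = 0 := by
  let P : Polynomial ℂ := Polynomial.C (c 0) + Polynomial.C (c 1) * Polynomial.X +
    Polynomial.C (c 2) * Polynomial.X ^ 2 + Polynomial.C (c 3) * Polynomial.X ^ 3 +
    Polynomial.C (c 4) * Polynomial.X ^ 4
  have hP : P = 0 := by
    refine Polynomial.eq_zero_of_infinite_isRoot P (hS.mono fun t ht => ?_)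
    show Polynomial.eval t P = 0
    simp only [P, Polynomial.eval_add, Polynomial.eval_mul, Polynomial.eval_C,
      Polynomial.eval_pow, Polynomial.eval_X]
    exact h t ht
  have hc : ∀ k, P.coeff k = 0 := fun k => by rw [hP, Polynomial.coeff_zero]
  funext i
  fin_cases i
  · simpa [P, Polynomial.coeff_X, Polynomial.coeff_X_pow, Polynomial.coeff_C] using hc 0
  · simpa [P, Polynomial.coeff_X, Polynomial.coeff_X_pow, Polynomial.coeff_C] using hc 1
  · simpa [P, Polynomial.coeff_X, Polynomial.coeff_X_pow, Polynomial.coeff_C] using hc 2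
  · simpa [P, Polynomial.coeff_X, Polynomial.coeff_X_pow, Polynomial.coeff_C] using hc 3
  · simpa [P, Polynomial.coeff_X, Polynomial.coeff_X_pow, Polynomial.coeff_C] using hc 4

/-- Infinitely many triple points, no two of which are on a line through the origin. -/
theorem case_two (hm : m ≠ 0) (hinf : {p | T3 (F m q) p}.Infinite)
    (hnp : ∀ e, T3 (F m q) e → e ≠ 0 → ∀ t : ℂ, t ≠ 0 → t ≠ 1 → ¬ T3 (F m q) (t • e)) :
    q 3 = 0 ∧ q 4 = 0 ∧ q 7 = 0 ∧ q 8 = 0 ∧ q 10 = 0 ∧ q 11 = 0 ∧ q 12 = 0 ∧ q 13 = 0 ∧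
      q 14 = 0 := by
  classical
  have key : ∀ p p' : Fin 3 → ℂ, T3 (F m q) p → T3 (F m q) p' → p ≠ 0 →
      ∀ t : ℂ, t ≠ 0 → p' = t • p → p' = p := by
    intro p p' hp hp' h0 t ht hpt
    by_contra hne
    have ht1 : t ≠ 1 := by
      rintro rfl
      rw [one_smul] at hpt
      exact hne hpt
    rw [hpt] at hp'
    exact hnp p hp h0 t ht ht1 hp'
  have hZ : {p | T3 (F m q) p ∧ p 1 = 0}.Finite := by
    by_cases hex : ∃ e, T3 (F m q) e ∧ e 1 = 0 ∧ e ≠ 0
    · obtain ⟨e, he, he1, he0⟩ := hex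
      refine (Set.toFinite {0, e}).subset ?_
      rintro p ⟨hp, hp1⟩
      by_cases hp0 : p = 0
      · exact Or.inl hp0
      · right
        have e0 := he.x0 hm
        have p0 := hp.x0 hm
        have e2 : e 2 ≠ 0 := by
          intro h
          apply he0
          funext i
          fin_cases i
          · exact e0
          · exact he1
          · exact h
        have p2 : p 2 ≠ 0 := by
          intro h
          apply hp0
          funext i
          fin_cases i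
          · exact p0
          · exact hp1
          · exact h
        refine key e p he hp he0 (p 2 / e 2) (div_ne_zero p2 e2) ?_
        funext i
        fin_cases i
        · show p 0 = _ * e 0
          rw [p0, e0, mul_zero]
        · show p 1 = _ * e 1
          rw [hp1, he1, mul_zero]
        · show p 2 = p 2 / e 2 * e 2
          rw [div_mul_cancel₀ _ e2]
    · push Not at hex
      refine (Set.finite_singleton 0).subset ?_
      rintro p ⟨hp, hp1⟩
      exact hex p hp hp1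
  have hY : {p | T3 (F m q) p ∧ p 1 ≠ 0}.Infinite := by
    intro hfin
    apply hinf
    refine (hZ.union hfin).subset fun p hp => ?_
    by_cases h : p 1 = 0
    · exact Or.inl ⟨hp, h⟩
    · exact Or.inr ⟨hp, h⟩
  have hinj : Set.InjOn (fun p : Fin 3 → ℂ => p 2 / p 1) {p | T3 (F m q) p ∧ p 1 ≠ 0} := by
    rintro e ⟨he, he1⟩ p ⟨hp, hp1⟩ hep
    have hep' : e 2 / e 1 = p 2 / p 1 := hep
    refine (key e p he hp ?_ (p 1 / e 1) (div_ne_zero hp1 he1) ?_).symm
    · rintro rfl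
      exact he1 rfl
    · funext i
      fin_cases i
      · show p 0 = _ * e 0
        rw [hp.x0 hm, he.x0 hm, mul_zero]
      · show p 1 = p 1 / e 1 * e 1
        rw [div_mul_cancel₀ _ he1]
      · show p 2 = p 1 / e 1 * e 2
        field_simp at hep' ⊢
        linear_combination -hep'
  have hS := hY.image hinj
  have hV := coef_zero (c := ![q 3, q 7, q 10, q 12, 0]) hS (by
    rintro _ ⟨p, ⟨hp, hp1⟩, rfl⟩
    have h := (hp.uv hm).1
    show q 3 + q 7 * (p 2 / p 1) + q 10 * (p 2 / p 1) ^ 2 + q 12 * (p 2 / p 1) ^ 3 +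
      0 * (p 2 / p 1) ^ 4 = 0
    field_simp
    linear_combination p 1 * h)
  have hU := coef_zero (c := ![q 4, q 8, q 11, q 13, q 14]) hS (by
    rintro _ ⟨p, ⟨hp, hp1⟩, rfl⟩
    have h := (hp.uv hm).2
    show q 4 + q 8 * (p 2 / p 1) + q 11 * (p 2 / p 1) ^ 2 + q 13 * (p 2 / p 1) ^ 3 +
      q 14 * (p 2 / p 1) ^ 4 = 0
    field_simp
    linear_combination h)
  exact ⟨congrFun hV 0, congrFun hU 0, congrFun hV 1, congrFun hU 1, congrFun hV 2,
    congrFun hU 2, congrFun hV 3, congrFun hU 3, congrFun hU 4⟩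

/-- Three triple points on a line. -/
theorem case_one {t : ℂ} (ht : t ≠ 0) (ht1 : t ≠ 1) (h1 : T3 (F m q) ![0, 0, 1])
    (h2 : T3 (F m q) ![0, 0, t]) : m 2 = 0 ∧ q 9 = 0 ∧ q 10 = 0 ∧ q 11 = 0 ∧ q 12 = 0 ∧
      q 13 = 0 ∧ q 14 = 0 := by
  have hxx := h1.2.2 0 0
  have hxx' := h2.2.2 0 0
  have hxy := h1.2.2 0 1
  have hxz := h1.2.2 0 2
  have hyy := h1.2.2 1 1
  have hyz := h1.2.2 1 2
  have hzz := h1.2.2 2 2
  rw [E00] at hxx hxx'
  rw [E01] at hxy
  rw [E02] at hxz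
  rw [E11] at hyy
  rw [E12] at hyz
  rw [E22] at hzz
  have v0 : ∀ z : ℂ, (![0, 0, z] : Fin 3 → ℂ) 0 = 0 := fun _ => rfl
  have v1 : ∀ z : ℂ, (![0, 0, z] : Fin 3 → ℂ) 1 = 0 := fun _ => rfl
  have v2 : ∀ z : ℂ, (![0, 0, z] : Fin 3 → ℂ) 2 = z := fun _ => rfl
  rw [v0, v1, v2] at hxx hxx' hxy hxz hyy hyz hzz
  have a1 : m 2 + q 9 = 0 := by linear_combination (1 / 2 : ℂ) * hxx
  have a2 : t * (m 2 + q 9 * t) = 0 := by linear_combination (1 / 2 : ℂ) * hxx'
  have a3 : m 2 + q 9 * t = 0 := (mul_eq_zero.1 a2).resolve_left ht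
  have a4 : (t - 1) * q 9 = 0 := by linear_combination a3 - a1
  have a5 : q 9 = 0 := (mul_eq_zero.1 a4).resolve_left (sub_ne_zero.2 ht1)
  refine ⟨by linear_combination a1 - a5, a5, ?_, ?_, ?_, ?_, ?_⟩
  · linear_combination hxy
  · linear_combination (1 / 2 : ℂ) * hyy
  · linear_combination (1 / 3 : ℂ) * hxz
  · linear_combination (1 / 3 : ℂ) * hyz
  · linear_combination (1 / 12 : ℂ) * hzz

end QH

end MPb07157
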