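import Pool.Agent.Lib.MP_b07157_agQH.Sq

/-!
# Quartics with infinitely many triple points: explicit form
-/

noncomputable section

namespace MPb07157

open MvPolynomial

namespace QH

/-- The point is at least a triple point. -/
def T3 (f : MvPolynomial (Fin 3) ℂ) (p : Fin 3 → ℂ) : Prop :=
  eval p f = 0 ∧ (∀ i, eval p (pderiv i f) = 0) ∧ ∀ i j, eval p (pderiv i (pderiv j f)) = 0

/-- The polynomials of degree at most four with a triple point at the origin whose tangent cone is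
divisible by `x_0 ^ 2`. -/
def F (m : Fin 3 → ℂ) (q : Fin 15 → ℂ) : MvPolynomial (Fin 3) ℂ :=
  X 0 ^ 2 * (C (m 0) * X 0 + C (m 1) * X 1 + C (m 2) * X 2) +
  (C (q 0) * X 0 ^ 4 + C (q 1) * (X 0 ^ 3 * X 1) + C (q 2) * (X 0 ^ 2 * X 1 ^ 2) +
    C (q 3) * (X 0 * X 1 ^ 3) + C (q 4) * X 1 ^ 4) +
  X 2 * (C (q 5) * X 0 ^ 3 + C (q 6) * (X 0 ^ 2 * X 1) + C (q 7) * (X 0 * X 1 ^ 2) +
    C (q 8) * X 1 ^ 3) +
  X 2 ^ 2 * (C (q 9) * X 0 ^ 2 + C (q 10) * (X 0 * X 1) + C (q 11) * X 1 ^ 2) +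
  X 2 ^ 3 * (C (q 12) * X 0 + C (q 13) * X 1) + C (q 14) * X 2 ^ 4

variable (m : Fin 3 → ℂ) (q : Fin 15 → ℂ) (p : Fin 3 → ℂ)

theorem D0 : pderiv 0 (F m q) =
    2 * X 0 * (C (m 0) * X 0 + C (m 1) * X 1 + C (m 2) * X 2) + X 0 ^ 2 * C (m 0) +
    (4 * C (q 0) * X 0 ^ 3 + 3 * C (q 1) * (X 0 ^ 2 * X 1) + 2 * C (q 2) * (X 0 * X 1 ^ 2) +
      C (q 3) * X 1 ^ 3) +
    X 2 * (3 * C (q 5) * X 0 ^ 2 + 2 * C (q 6) * (X 0 * X 1) + C (q 7) * X 1 ^ 2) +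
    X 2 ^ 2 * (2 * C (q 9) * X 0 + C (q 10) * X 1) + X 2 ^ 3 * C (q 12) := by
  simp only [F, map_add, Derivation.leibniz, Derivation.leibniz_pow, pderiv_C, smul_eq_mul,
    pderiv_X_self, pderiv_X_of_ne (show (1 : Fin 3) ≠ 0 by decide),
    pderiv_X_of_ne (show (2 : Fin 3) ≠ 0 by decide), mul_zero, add_zero, zero_add,
    smul_zero, mul_one, nsmul_eq_mul]
  push_cast
  ring

theorem D1 : pderiv 1 (F m q) =
    X 0 ^ 2 * C (m 1) +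
    (C (q 1) * X 0 ^ 3 + 2 * C (q 2) * (X 0 ^ 2 * X 1) + 3 * C (q 3) * (X 0 * X 1 ^ 2) +
      4 * C (q 4) * X 1 ^ 3) +
    X 2 * (C (q 6) * X 0 ^ 2 + 2 * C (q 7) * (X 0 * X 1) + 3 * C (q 8) * X 1 ^ 2) +
    X 2 ^ 2 * (C (q 10) * X 0 + 2 * C (q 11) * X 1) + X 2 ^ 3 * C (q 13) := by
  simp only [F, map_add, Derivation.leibniz, Derivation.leibniz_pow, pderiv_C, smul_eq_mul,
    pderiv_X_self, pderiv_X_of_ne (show (0 : Fin 3) ≠ 1 by decide),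
    pderiv_X_of_ne (show (2 : Fin 3) ≠ 1 by decide), mul_zero, add_zero, zero_add,
    smul_zero, mul_one, nsmul_eq_mul]
  push_cast
  ring

theorem D2 : pderiv 2 (F m q) =
    X 0 ^ 2 * C (m 2) +
    (C (q 5) * X 0 ^ 3 + C (q 6) * (X 0 ^ 2 * X 1) + C (q 7) * (X 0 * X 1 ^ 2) +
      C (q 8) * X 1 ^ 3) +
    2 * X 2 * (C (q 9) * X 0 ^ 2 + C (q 10) * (X 0 * X 1) + C (q 11) * X 1 ^ 2) +
    3 * X 2 ^ 2 * (C (q 12) * X 0 + C (q 13) * X 1) + 4 * C (q 14) * X 2 ^ 3 := by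
  simp only [F, map_add, Derivation.leibniz, Derivation.leibniz_pow, pderiv_C, smul_eq_mul,
    pderiv_X_self, pderiv_X_of_ne (show (0 : Fin 3) ≠ 2 by decide),
    pderiv_X_of_ne (show (1 : Fin 3) ≠ 2 by decide), mul_zero, add_zero, zero_add,
    smul_zero, mul_one, nsmul_eq_mul]
  push_cast
  ring

theorem pd2 (i : Fin 3) : pderiv i (2 : MvPolynomial (Fin 3) ℂ) = 0 :=
  Derivation.map_natCast _ 2

theorem pd3 (i : Fin 3) : pderiv i (3 : MvPolynomial (Fin 3) ℂ) = 0 :=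
  Derivation.map_natCast _ 3

theorem pd4 (i : Fin 3) : pderiv i (4 : MvPolynomial (Fin 3) ℂ) = 0 :=
  Derivation.map_natCast _ 4

theorem E0 : eval p (pderiv 0 (F m q)) =
    3 * m 0 * p 0 ^ 2 + 2 * m 1 * p 0 * p 1 + 2 * m 2 * p 0 * p 2 + 4 * q 0 * p 0 ^ 3 +
    3 * q 1 * p 0 ^ 2 * p 1 + 2 * q 2 * p 0 * p 1 ^ 2 + q 3 * p 1 ^ 3 + 3 * q 5 * p 0 ^ 2 * p 2 +
    2 * q 6 * p 0 * p 1 * p 2 + q 7 * p 1 ^ 2 * p 2 + 2 * q 9 * p 0 * p 2 ^ 2 +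
    q 10 * p 1 * p 2 ^ 2 + q 12 * p 2 ^ 3 := by
  rw [D0]
  simp only [map_add, map_mul, map_pow, eval_C, eval_X, map_ofNat]
  ring

theorem E1 : eval p (pderiv 1 (F m q)) =
    m 1 * p 0 ^ 2 + q 1 * p 0 ^ 3 + 2 * q 2 * p 0 ^ 2 * p 1 + 3 * q 3 * p 0 * p 1 ^ 2 +
    4 * q 4 * p 1 ^ 3 + q 6 * p 0 ^ 2 * p 2 + 2 * q 7 * p 0 * p 1 * p 2 +
    3 * q 8 * p 1 ^ 2 * p 2 + q 10 * p 0 * p 2 ^ 2 + 2 * q 11 * p 1 * p 2 ^ 2 + q 13 * p 2 ^ 3 := by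
  rw [D1]
  simp only [map_add, map_mul, map_pow, eval_C, eval_X, map_ofNat]
  ring

theorem E2 : eval p (pderiv 2 (F m q)) =
    m 2 * p 0 ^ 2 + q 5 * p 0 ^ 3 + q 6 * p 0 ^ 2 * p 1 + q 7 * p 0 * p 1 ^ 2 + q 8 * p 1 ^ 3 +
    2 * q 9 * p 0 ^ 2 * p 2 + 2 * q 10 * p 0 * p 1 * p 2 + 2 * q 11 * p 1 ^ 2 * p 2 +
    3 * q 12 * p 0 * p 2 ^ 2 + 3 * q 13 * p 1 * p 2 ^ 2 + 4 * q 14 * p 2 ^ 3 := by
  rw [D2]
  simp only [map_add, map_mul, map_pow, eval_C, eval_X, map_ofNat]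
  ring

theorem E00 : eval p (pderiv 0 (pderiv 0 (F m q))) =
    6 * m 0 * p 0 + 2 * m 1 * p 1 + 2 * m 2 * p 2 + 12 * q 0 * p 0 ^ 2 + 6 * q 1 * p 0 * p 1 +
    2 * q 2 * p 1 ^ 2 + 6 * q 5 * p 0 * p 2 + 2 * q 6 * p 1 * p 2 + 2 * q 9 * p 2 ^ 2 := by
  rw [D0]
  simp only [map_add, Derivation.leibniz, Derivation.leibniz_pow, pderiv_C, smul_eq_mul,
    pderiv_X_self, pderiv_X_of_ne (show (1 : Fin 3) ≠ 0 by decide),
    pderiv_X_of_ne (show (2 : Fin 3) ≠ 0 by decide), mul_zero, add_zero, zero_add,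
    smul_zero, mul_one, nsmul_eq_mul, map_mul, map_pow, eval_C, eval_X, map_ofNat, map_natCast,
    pd2, pd3, pd4]
  push_cast
  ring

theorem E01 : eval p (pderiv 0 (pderiv 1 (F m q))) =
    2 * m 1 * p 0 + 3 * q 1 * p 0 ^ 2 + 4 * q 2 * p 0 * p 1 + 3 * q 3 * p 1 ^ 2 +
    2 * q 6 * p 0 * p 2 + 2 * q 7 * p 1 * p 2 + q 10 * p 2 ^ 2 := by
  rw [D1]
  simp only [map_add, Derivation.leibniz, Derivation.leibniz_pow, pderiv_C, smul_eq_mul,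
    pderiv_X_self, pderiv_X_of_ne (show (1 : Fin 3) ≠ 0 by decide),
    pderiv_X_of_ne (show (2 : Fin 3) ≠ 0 by decide), mul_zero, add_zero, zero_add,
    smul_zero, mul_one, nsmul_eq_mul, map_mul, map_pow, eval_C, eval_X, map_ofNat, map_natCast,
    pd2, pd3, pd4]
  push_cast
  ring

theorem E02 : eval p (pderiv 0 (pderiv 2 (F m q))) =
    2 * m 2 * p 0 + 3 * q 5 * p 0 ^ 2 + 2 * q 6 * p 0 * p 1 + q 7 * p 1 ^ 2 +
    4 * q 9 * p 0 * p 2 + 2 * q 10 * p 1 * p 2 + 3 * q 12 * p 2 ^ 2 := by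
  rw [D2]
  simp only [map_add, Derivation.leibniz, Derivation.leibniz_pow, pderiv_C, smul_eq_mul,
    pderiv_X_self, pderiv_X_of_ne (show (1 : Fin 3) ≠ 0 by decide),
    pderiv_X_of_ne (show (2 : Fin 3) ≠ 0 by decide), mul_zero, add_zero, zero_add,
    smul_zero, mul_one, nsmul_eq_mul, map_mul, map_pow, eval_C, eval_X, map_ofNat, map_natCast,
    pd2, pd3, pd4]
  push_cast
  ring

theorem E11 : eval p (pderiv 1 (pderiv 1 (F m q))) =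
    2 * q 2 * p 0 ^ 2 + 6 * q 3 * p 0 * p 1 + 12 * q 4 * p 1 ^ 2 + 2 * q 7 * p 0 * p 2 +
    6 * q 8 * p 1 * p 2 + 2 * q 11 * p 2 ^ 2 := by
  rw [D1]
  simp only [map_add, Derivation.leibniz, Derivation.leibniz_pow, pderiv_C, smul_eq_mul,
    pderiv_X_self, pderiv_X_of_ne (show (0 : Fin 3) ≠ 1 by decide),
    pderiv_X_of_ne (show (2 : Fin 3) ≠ 1 by decide), mul_zero, add_zero, zero_add,
    smul_zero, mul_one, nsmul_eq_mul, map_mul, map_pow, eval_C, eval_X, map_ofNat, map_natCast,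
    pd2, pd3, pd4]
  push_cast
  ring

theorem E12 : eval p (pderiv 1 (pderiv 2 (F m q))) =
    q 6 * p 0 ^ 2 + 2 * q 7 * p 0 * p 1 + 3 * q 8 * p 1 ^ 2 + 2 * q 10 * p 0 * p 2 +
    4 * q 11 * p 1 * p 2 + 3 * q 13 * p 2 ^ 2 := by
  rw [D2]
  simp only [map_add, Derivation.leibniz, Derivation.leibniz_pow, pderiv_C, smul_eq_mul,
    pderiv_X_self, pderiv_X_of_ne (show (0 : Fin 3) ≠ 1 by decide),
    pderiv_X_of_ne (show (2 : Fin 3) ≠ 1 by decide), mul_zero, add_zero, zero_add,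
    smul_zero, mul_one, nsmul_eq_mul, map_mul, map_pow, eval_C, eval_X, map_ofNat, map_natCast,
    pd2, pd3, pd4]
  push_cast
  ring

theorem E22 : eval p (pderiv 2 (pderiv 2 (F m q))) =
    2 * q 9 * p 0 ^ 2 + 2 * q 10 * p 0 * p 1 + 2 * q 11 * p 1 ^ 2 + 6 * q 12 * p 0 * p 2 +
    6 * q 13 * p 1 * p 2 + 12 * q 14 * p 2 ^ 2 := by
  rw [D2]
  simp only [map_add, Derivation.leibniz, Derivation.leibniz_pow, pderiv_C, smul_eq_mul,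
    pderiv_X_self, pderiv_X_of_ne (show (0 : Fin 3) ≠ 2 by decide),
    pderiv_X_of_ne (show (1 : Fin 3) ≠ 2 by decide), mul_zero, add_zero, zero_add,
    smul_zero, mul_one, nsmul_eq_mul, map_mul, map_pow, eval_C, eval_X, map_ofNat, map_natCast,
    pd2, pd3, pd4]
  push_cast
  ring

end QH

end MPb07157
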