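import Pool.Agent.Lib.MP_b07157_agQH.Def
import Pool.Agent.Lib.MP_b07157_agLC.Lin

/-!
# Quartics with infinitely many triple points: linear changes of coordinates
-/

noncomputable section

namespace MPb07157

open MvPolynomial LC

namespace QH

/-- A linear change of coordinates of the homogeneous components. -/
theorem homogeneousComponent_subM {n : ℕ} (M : Matrix (Fin n) (Fin n) ℂ)
    (F : MvPolynomial (Fin n) ℂ) (j : ℕ) : homogeneousComponent j (aeval (subM M) F) =
      aeval (subM M) (homogeneousComponent j F) := by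
  classical
  have hM : ∀ i, (subM M i).IsHomogeneous 1 := fun i =>
    IsHomogeneous.sum _ _ _ fun j _ => (isHomogeneous_X _ j).C_mul _
  have h1 : ∀ i, (aeval (subM M) (homogeneousComponent i F)).IsHomogeneous i := by
    intro i
    have h2 := (homogeneousComponent_isHomogeneous i F).aeval (subM M) hM
    rwa [one_mul] at h2
  conv_lhs => rw [← sum_homogeneousComponent F, map_sum, map_sum]
  rw [Finset.sum_eq_single j]
  · rw [homogeneousComponent_of_mem (h1 j), if_pos rfl]
  · intro i _ hi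
    rw [homogeneousComponent_of_mem (h1 i), if_neg (Ne.symm hi)]
  · intro h
    rw [Finset.mem_range, not_lt] at h
    rw [homogeneousComponent_eq_zero j F (by omega), map_zero, map_zero]

theorem aeval_subM_subM {n : ℕ} (A B : Matrix (Fin n) (Fin n) ℂ) (g : MvPolynomial (Fin n) ℂ) :
    aeval (subM A) (aeval (subM B) g) = aeval (subM (B * A)) g := by
  rw [← AlgHom.comp_apply, comp_aeval]
  congr 2
  funext i
  simp only [subM, map_sum, map_mul, aeval_X, Matrix.mul_apply, Finset.mul_sum, Finset.sum_mul]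
  rw [Finset.sum_comm]
  refine Finset.sum_congr rfl fun j _ => Finset.sum_congr rfl fun k _ => ?_
  rw [← algebraMap_eq, AlgHom.commutes]
  ring

theorem aeval_subM_one {n : ℕ} (g : MvPolynomial (Fin n) ℂ) :
    aeval (subM (1 : Matrix (Fin n) (Fin n) ℂ)) g = g := by
  classical
  have h : subM (1 : Matrix (Fin n) (Fin n) ℂ) = X := by
    funext i
    simp only [subM]
    rw [Finset.sum_eq_single i]
    · rw [Matrix.one_apply_eq, map_one, one_mul]
    · intro j _ hj
      rw [Matrix.one_apply_ne (Ne.symm hj), map_zero, zero_mul]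
    · intro h
      exact absurd (Finset.mem_univ i) h
  rw [h, aeval_X_left]
  rfl

/-- The linear automorphism. -/
def linE {n : ℕ} (M : Matrix (Fin n) (Fin n) ℂ) (hM : M.det ≠ 0) :
    MvPolynomial (Fin n) ℂ ≃ₐ[ℂ] MvPolynomial (Fin n) ℂ :=
  AlgEquiv.ofAlgHom (aeval (subM M)) (aeval (subM M⁻¹))
    (by
      refine AlgHom.ext fun g => ?_
      rw [AlgHom.comp_apply, aeval_subM_subM, Matrix.nonsing_inv_mul _ (isUnit_iff_ne_zero.2 hM),
        aeval_subM_one]
      rfl)
    (by
      refine AlgHom.ext fun g => ?_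
      rw [AlgHom.comp_apply, aeval_subM_subM, Matrix.mul_nonsing_inv _ (isUnit_iff_ne_zero.2 hM),
        aeval_subM_one]
      rfl)

theorem smcGlob_of_subM {n : ℕ} {f : MvPolynomial (Fin n) ℂ} (M : Matrix (Fin n) (Fin n) ℂ)
    (hM : M.det ≠ 0) (h : SmcGlob (aeval (subM M) f)) : SmcGlob f := by
  refine SmcGlob.of_polyEquivPow one_pos ⟨(linE M hM).symm, 1, one_ne_zero, ?_⟩ h
  rw [pow_one, map_one, one_mul]
  exact ((linE M hM).symm_apply_apply f).symm

theorem subM_ne_zero {n : ℕ} {f : MvPolynomial (Fin n) ℂ} (M : Matrix (Fin n) (Fin n) ℂ)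
    (hM : M.det ≠ 0) (h : f ≠ 0) : aeval (subM M) f ≠ 0 := by
  intro h0
  apply h
  apply (linE M hM).injective
  rw [map_zero]
  exact h0

theorem isHomogeneous_subM {n k : ℕ} {f : MvPolynomial (Fin n) ℂ}
    (M : Matrix (Fin n) (Fin n) ℂ) (h : f.IsHomogeneous k) :
    (aeval (subM M) f).IsHomogeneous k := by
  have h1 : homogeneousComponent k f = f := by
    rw [homogeneousComponent_of_mem ((mem_homogeneousSubmodule _ _).2 h), if_pos rfl]
  rw [← h1, ← homogeneousComponent_subM]
  exact homogeneousComponent_isHomogeneous _ _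

theorem totalDegree_subM {n : ℕ} {f : MvPolynomial (Fin n) ℂ}
    (M : Matrix (Fin n) (Fin n) ℂ) {d : ℕ} (h : f.totalDegree ≤ d) :
    (aeval (subM M) f).totalDegree ≤ d := by
  rw [← sum_homogeneousComponent f, map_sum]
  refine (totalDegree_finsetSum _ _).trans (Finset.sup_le fun i hi => ?_)
  rw [Finset.mem_range] at hi
  exact ((isHomogeneous_subM M (homogeneousComponent_isHomogeneous i f)).totalDegree_le).trans
    (by omega)

theorem translate_subM {n : ℕ} (M : Matrix (Fin n) (Fin n) ℂ) (w : Fin n → ℂ)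
    (f : MvPolynomial (Fin n) ℂ) :
    translate w (aeval (subM M) f) = aeval (subM M) (translate (M.mulVec w) f) := by
  refine MvPolynomial.funext fun z => ?_
  rw [eval_subM, D5.eval_translate', D5.eval_translate', eval_subM, Matrix.mulVec_add]

theorem t3_iff {f : MvPolynomial (Fin 3) ℂ} {p : Fin 3 → ℂ} :
    T3 f p ↔ ∀ j < 3, homogeneousComponent j (translate p f) = 0 := by
  constructor
  · rintro ⟨h0, h1, h2⟩
    refine SE4.low_of_derivatives ?_ (fun i => ?_) fun i j => ?_
    · rw [SE3.coeff_zero_tr, h0]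
    · rw [pderiv_translate, SE3.coeff_zero_tr, h1]
    · rw [pderiv_translate, pderiv_translate, SE3.coeff_zero_tr, h2]
  · intro h
    have hc : ∀ v : Fin 3 →₀ ℕ, v.degree < 3 → coeff v (translate p f) = 0 := by
      intro v hv
      have h1 : coeff v (homogeneousComponent v.degree (translate p f)) = 0 := by
        rw [h _ hv, coeff_zero]
      rwa [coeff_homogeneousComponent, if_pos rfl] at h1
    refine ⟨?_, fun i => ?_, fun i j => ?_⟩
    · rw [← SE3.coeff_zero_tr]
      exact hc 0 (by rw [map_zero]; norm_num)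
    · rw [← SE3.coeff_zero_tr, ← pderiv_translate, coeff_pderiv, zero_add,
        hc _ (by rw [Finsupp.degree_single]; norm_num), zero_mul]
    · have h2 : (Finsupp.single i 1 + Finsupp.single j 1 : Fin 3 →₀ ℕ).degree < 3 := by
        rw [map_add, Finsupp.degree_single, Finsupp.degree_single]
        norm_num
      rw [← SE3.coeff_zero_tr, ← pderiv_translate, ← pderiv_translate, coeff_pderiv, zero_add,
        coeff_pderiv, hc _ h2, zero_mul, zero_mul]

theorem T3.subM {f : MvPolynomial (Fin 3) ℂ} (M : Matrix (Fin 3) (Fin 3) ℂ) {w : Fin 3 → ℂ}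
    (h : T3 f (M.mulVec w)) : T3 (aeval (LC.subM M) f) w := by
  rw [t3_iff] at h ⊢
  intro j hj
  rw [translate_subM, homogeneousComponent_subM, h j hj, map_zero]

/-- The exponent. -/
def vec (i j k : ℕ) : Fin 3 →₀ ℕ := Finsupp.single 0 i + Finsupp.single 1 j + Finsupp.single 2 k

theorem vec_degree (i j k : ℕ) : (vec i j k).degree = i + j + k := by
  rw [vec, map_add, map_add, Finsupp.degree_single, Finsupp.degree_single, Finsupp.degree_single]

theorem eq_vec (v : Fin 3 →₀ ℕ) : v = vec (v 0) (v 1) (v 2) := by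
  ext i
  fin_cases i <;> simp [vec]

theorem monomial_vec (i j k : ℕ) (c : ℂ) :
    monomial (vec i j k) c = C c * (X 0 ^ i * X 1 ^ j * X 2 ^ k) := by
  rw [vec, X_pow_eq_monomial, X_pow_eq_monomial, X_pow_eq_monomial, monomial_mul, monomial_mul,
    C_mul_monomial, mul_one, mul_one, mul_one]

/-- A form of degree four. -/
theorem form_four {g : MvPolynomial (Fin 3) ℂ} (hg : g.IsHomogeneous 4) :
    g = ∑ i ∈ Finset.range 5, ∑ k ∈ Finset.range (5 - i),
      C (coeff (vec i (4 - i - k) k) g) * (X 0 ^ i * X 1 ^ (4 - i - k) * X 2 ^ k) := by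
  classical
  ext v
  rw [coeff_sum]
  simp only [coeff_sum, ← monomial_vec, coeff_monomial]
  by_cases hv : v.degree = 4
  · have hd : v 0 + v 1 + v 2 = 4 := by
      rw [← hv, Finsupp.degree_eq_sum, Fin.sum_univ_three]
    rw [Finset.sum_eq_single (v 0), Finset.sum_eq_single (v 2), if_pos]
    · have h1 : 4 - v 0 - v 2 = v 1 := by omega
      rw [h1, ← eq_vec]
    · have h1 : 4 - v 0 - v 2 = v 1 := by omega
      rw [h1, ← eq_vec]
    · intro k _ hk
      rw [if_neg]
      intro h
      apply hk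
      rw [← h]
      simp [vec]
    · intro h
      exact absurd (Finset.mem_range.2 (by omega)) h
    · intro i _ hi
      refine Finset.sum_eq_zero fun k _ => ?_
      rw [if_neg]
      intro h
      apply hi
      rw [← h]
      simp [vec]
    · intro h
      exact absurd (Finset.mem_range.2 (by omega)) h
  · have h1 : coeff v g = 0 := hg.coeff_eq_zero hv
    rw [h1, eq_comm]
    refine Finset.sum_eq_zero fun i hi => Finset.sum_eq_zero fun k hk => ?_
    rw [Finset.mem_range] at hi hk
    rw [if_neg]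
    rintro rfl
    apply hv
    rw [vec_degree]
    omega

/-- A linear form. -/
theorem form_one {g : MvPolynomial (Fin 3) ℂ} (hg : g.IsHomogeneous 1) :
    ∃ m : Fin 3 → ℂ, g = C (m 0) * X 0 + C (m 1) * X 1 + C (m 2) * X 2 := by
  refine ⟨fun i => coeff (Finsupp.single i 1) g, MvPolynomial.funext fun z => ?_⟩
  rw [OR.eval_of_isHomogeneous_one hg z, Fin.sum_univ_three]
  simp only [map_add, map_mul, eval_C, eval_X]

theorem F_vec (m : Fin 3 → ℂ) (a0 a1 a2 a3 a4 a5 a6 a7 a8 a9 a10 a11 a12 a13 a14 : ℂ) :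
    F m ![a0, a1, a2, a3, a4, a5, a6, a7, a8, a9, a10, a11, a12, a13, a14] =
  X 0 ^ 2 * (C (m 0) * X 0 + C (m 1) * X 1 + C (m 2) * X 2) +
  (C a0 * X 0 ^ 4 + C a1 * (X 0 ^ 3 * X 1) + C a2 * (X 0 ^ 2 * X 1 ^ 2) +
    C a3 * (X 0 * X 1 ^ 3) + C a4 * X 1 ^ 4) +
  X 2 * (C a5 * X 0 ^ 3 + C a6 * (X 0 ^ 2 * X 1) + C a7 * (X 0 * X 1 ^ 2) +
    C a8 * X 1 ^ 3) +
  X 2 ^ 2 * (C a9 * X 0 ^ 2 + C a10 * (X 0 * X 1) + C a11 * X 1 ^ 2) +
  X 2 ^ 3 * (C a12 * X 0 + C a13 * X 1) + C a14 * X 2 ^ 4 := rfl

/-- Polynomials of degree at most four with a triple point at the origin whose tangent cone is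
divisible by `x_0 ^ 2`. -/
theorem exists_F {f l : MvPolynomial (Fin 3) ℂ} (hd : f.totalDegree ≤ 4)
    (low : ∀ j < 3, homogeneousComponent j f = 0) (hl : l.IsHomogeneous 1) (hl0 : l ≠ 0)
    (h3 : homogeneousComponent 3 f = X 0 ^ 2 * l) : ∃ m q, m ≠ 0 ∧ f = F m q := by
  obtain ⟨m, hm⟩ := form_one hl
  have h4 : (homogeneousComponent 4 f).IsHomogeneous 4 := homogeneousComponent_isHomogeneous 4 f
  have hf : f = homogeneousComponent 3 f + homogeneousComponent 4 f := by
    have h5 : ∑ i ∈ Finset.range 5, homogeneousComponent i f = f := by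
      rw [← Finset.sum_subset (Finset.range_mono (show f.totalDegree + 1 ≤ 5 by omega))
        (fun i _ hi => homogeneousComponent_eq_zero i f
          (by rw [Finset.mem_range] at hi; omega))]
      exact sum_homogeneousComponent f
    rw [Finset.sum_range_succ, Finset.sum_range_succ, Finset.sum_eq_zero fun j hj =>
      low j (Finset.mem_range.1 hj), zero_add] at h5
    exact h5.symm
  have h6 := form_four h4
  generalize homogeneousComponent 4 f = g at hf h6
  refine ⟨m, ![coeff (vec 4 0 0) g, coeff (vec 3 1 0) g, coeff (vec 2 2 0) g,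
    coeff (vec 1 3 0) g, coeff (vec 0 4 0) g, coeff (vec 3 0 1) g, coeff (vec 2 1 1) g,
    coeff (vec 1 2 1) g, coeff (vec 0 3 1) g, coeff (vec 2 0 2) g, coeff (vec 1 1 2) g,
    coeff (vec 0 2 2) g, coeff (vec 1 0 3) g, coeff (vec 0 1 3) g, coeff (vec 0 0 4) g], ?_, ?_⟩
  · rintro rfl
    apply hl0
    rw [hm]
    simp
  · rw [hf, h3, hm]
    conv_lhs => rw [h6]
    simp only [Finset.sum_range_succ, Finset.sum_range_zero, zero_add]
    norm_num
    rw [F_vec]
    ring

end QH

end MPb07157
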