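import Pool.Agent.Lib.MP_b07157_agQH.Bin
import Pool.Agent.Lib.MP_b07157_agQH.Lin
import Pool.Agent.Lib.MP_b07157_agQG.Defs

/-!
# Quartics with finitely many bad triple points
-/

noncomputable section

namespace MPb07157

open MvPolynomial

namespace QH

variable {m : Fin 3 → ℂ} {q : Fin 15 → ℂ} {p : Fin 3 → ℂ}

/-- The triple points with non-reduced tangent cone. -/
def Bad (f : MvPolynomial (Fin 3) ℂ) : Set (Fin 3 → ℂ) :=
  {p | T3 f p ∧ ¬ Squarefree (homogeneousComponent 3 (translate p f))}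

theorem bad_subset {f : MvPolynomial (Fin 3) ℂ} : Bad f ⊆ QG.Tr f := fun _ hp => hp.1

/-- The triple points with reduced tangent cone. -/
theorem cov_sqf {f : MvPolynomial (Fin 3) ℂ} (hf : f ≠ 0) :
    QG.Cov f {p | T3 f p ∧ Squarefree (homogeneousComponent 3 (translate p f))} := by
  classical
  obtain ⟨T₂, hT₂, hcov₂, hT₂W⟩ := exists_cover_ordMult hf
  obtain ⟨P, hP, hP1, hP2⟩ := SE3.triple_cover f
  refine ⟨T₂ ∪ (fun p => ({p} : Set (Fin 3 → ℂ))) '' P, hT₂.union (hP.image _), ?_, ?_⟩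
  · rintro W (hW | ⟨p, hp, rfl⟩)
    · obtain ⟨h1, k, m, h2⟩ := hT₂W W hW
      exact ⟨h1, Or.inl (Or.inl ⟨_, _, _, h2⟩)⟩
    · exact ⟨isConstr_point p, Or.inl (Or.inr ⟨p, rfl, fun _ _ =>
        SmcLoc.of_triple (hP1 p hp).1 (hP1 p hp).2⟩)⟩
  · rintro p ⟨⟨h0, h1, h2⟩, hs⟩
    have hlow : ∀ o, constantCoeff (SE3.gen (translate p f) o) = 0 := by
      intro o
      rw [SE3.gen_translate, ← MB.eval_eq_constantCoeff]
      rcases o with _ | i | ⟨i, j⟩
      · exact h0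
      · exact h1 i
      · exact h2 i j
    rcases hP2 p hlow hs with h | h
    · exact ⟨{p}, Or.inr ⟨p, h, rfl⟩, rfl⟩
    · obtain ⟨W, hW, hpW⟩ := hcov₂ p h
      exact ⟨W, Or.inl hW, hpW⟩

theorem cov_of_bad {f : MvPolynomial (Fin 3) ℂ} (hf : f ≠ 0) (h : QG.Cov f (Bad f)) :
    QG.Cov f (QG.Tr f) := by
  refine ((cov_sqf hf).union h).mono fun p hp => ?_
  by_cases hs : Squarefree (homogeneousComponent 3 (translate p f))
  · exact Or.inl ⟨hp, hs⟩
  · exact Or.inr ⟨hp, hs⟩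

/-- Points of multiplicity four are excluded. -/
theorem noQ_false {f : MvPolynomial (Fin 3) ℂ} (hq : QG.NoQ f) {p : Fin 3 → ℂ}
    (h : (translate p f).IsHomogeneous 4) : False := by
  have hc : ∀ v : Fin 3 →₀ ℕ, v.degree ≠ 4 → coeff v (translate p f) = 0 := fun v hv =>
    h.coeff_eq_zero hv
  have hT : T3 f p := by
    rw [t3_iff]
    intro j hj
    rw [homogeneousComponent_of_mem ((mem_homogeneousSubmodule _ _).2 h), if_neg (by omega)]
  obtain ⟨i, j, k, hne⟩ := hq p hT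
  apply hne
  rw [← SE3.coeff_zero_tr, ← pderiv_translate, ← pderiv_translate, ← pderiv_translate,
    coeff_pderiv, coeff_pderiv, coeff_pderiv, hc, zero_mul, zero_mul, zero_mul]
  rw [map_add, map_add, map_add, map_zero, Finsupp.degree_single, Finsupp.degree_single,
    Finsupp.degree_single]
  norm_num

/-- The tangent cone along the line. -/
def cz (m : Fin 3 → ℂ) (q : Fin 15 → ℂ) (z : ℂ) : MvPolynomial (Fin 3) ℂ :=
  X 0 ^ 2 * (C (m 0) * X 0 + C (m 1) * X 1) + C z * (C (q 5) * X 0 ^ 3 +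
    C (q 6) * (X 0 ^ 2 * X 1) + C (q 7) * (X 0 * X 1 ^ 2) + C (q 8) * X 1 ^ 3)

/-- The quartic part along the line. -/
def rz (q : Fin 15 → ℂ) : MvPolynomial (Fin 3) ℂ :=
  (C (q 0) * X 0 ^ 4 + C (q 1) * (X 0 ^ 3 * X 1) + C (q 2) * (X 0 ^ 2 * X 1 ^ 2) +
    C (q 3) * (X 0 * X 1 ^ 3) + C (q 4) * X 1 ^ 4) +
  X 2 * (C (q 5) * X 0 ^ 3 + C (q 6) * (X 0 ^ 2 * X 1) + C (q 7) * (X 0 * X 1 ^ 2) +
    C (q 8) * X 1 ^ 3)

theorem hX (i : Fin 3) (k : ℕ) : (X i ^ k : MvPolynomial (Fin 3) ℂ).IsHomogeneous k :=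
  isHomogeneous_X_pow i k

theorem cz_hom (z : ℂ) : (cz m q z).IsHomogeneous 3 := by
  have h1 : (X 0 ^ 2 * (C (m 0) * X 0 + C (m 1) * X 1) :
      MvPolynomial (Fin 3) ℂ).IsHomogeneous (2 + 1) :=
    (hX 0 2).mul (((isHomogeneous_X _ 0).C_mul _).add ((isHomogeneous_X _ 1).C_mul _))
  have h2 : (X 0 ^ 2 * X 1 : MvPolynomial (Fin 3) ℂ).IsHomogeneous (2 + 1) :=
    (hX 0 2).mul (isHomogeneous_X _ 1)
  have h3 : (X 0 * X 1 ^ 2 : MvPolynomial (Fin 3) ℂ).IsHomogeneous (1 + 2) :=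
    (isHomogeneous_X _ 0).mul (hX 1 2)
  exact h1.add (((((hX 0 3).C_mul _).add (h2.C_mul _)).add (h3.C_mul _)).add
    ((hX 1 3).C_mul _) |>.C_mul _)

theorem rz_hom : (rz q).IsHomogeneous 4 := by
  have h2 : (X 0 ^ 2 * X 1 : MvPolynomial (Fin 3) ℂ).IsHomogeneous (2 + 1) :=
    (hX 0 2).mul (isHomogeneous_X _ 1)
  have h3 : (X 0 * X 1 ^ 2 : MvPolynomial (Fin 3) ℂ).IsHomogeneous (1 + 2) :=
    (isHomogeneous_X _ 0).mul (hX 1 2)
  have h4 : (X 2 * (C (q 5) * X 0 ^ 3 + C (q 6) * (X 0 ^ 2 * X 1) + C (q 7) * (X 0 * X 1 ^ 2) +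
    C (q 8) * X 1 ^ 3) : MvPolynomial (Fin 3) ℂ).IsHomogeneous (1 + 3) :=
    (isHomogeneous_X _ 2).mul (((((hX 0 3).C_mul _).add (h2.C_mul _)).add (h3.C_mul _)).add
      ((hX 1 3).C_mul _))
  have h5 : (X 0 ^ 3 * X 1 : MvPolynomial (Fin 3) ℂ).IsHomogeneous (3 + 1) :=
    (hX 0 3).mul (isHomogeneous_X _ 1)
  have h6 : (X 0 ^ 2 * X 1 ^ 2 : MvPolynomial (Fin 3) ℂ).IsHomogeneous (2 + 2) :=
    (hX 0 2).mul (hX 1 2)
  have h7 : (X 0 * X 1 ^ 3 : MvPolynomial (Fin 3) ℂ).IsHomogeneous (1 + 3) :=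
    (isHomogeneous_X _ 0).mul (hX 1 3)
  exact ((((((hX 0 4).C_mul _).add (h5.C_mul _)).add (h6.C_mul _)).add (h7.C_mul _)).add
    ((hX 1 4).C_mul _)).add h4

theorem translate_F (h2 : m 2 = 0) (h9 : q 9 = 0) (h10 : q 10 = 0) (h11 : q 11 = 0)
    (h12 : q 12 = 0) (h13 : q 13 = 0) (h14 : q 14 = 0) (z : ℂ) :
    translate ![0, 0, z] (F m q) = cz m q z + rz q := by
  unfold translate F cz rz
  have e0 : (X 0 + C ((![0, 0, z] : Fin 3 → ℂ) 0) : MvPolynomial (Fin 3) ℂ) = X 0 := by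
    show X 0 + C 0 = _
    rw [map_zero, add_zero]
  have e1 : (X 1 + C ((![0, 0, z] : Fin 3 → ℂ) 1) : MvPolynomial (Fin 3) ℂ) = X 1 := by
    show X 1 + C 0 = _
    rw [map_zero, add_zero]
  have e2 : (X 2 + C ((![0, 0, z] : Fin 3 → ℂ) 2) : MvPolynomial (Fin 3) ℂ) = X 2 + C z := rfl
  simp only [map_add, map_mul, map_pow, aeval_X, aeval_C, algebraMap_eq, e0, e1, e2, h2, h9, h10,
    h11, h12, h13, h14, map_zero]
  ring

theorem comp_F (h2 : m 2 = 0) (h9 : q 9 = 0) (h10 : q 10 = 0) (h11 : q 11 = 0)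
    (h12 : q 12 = 0) (h13 : q 13 = 0) (h14 : q 14 = 0) (z : ℂ) :
    homogeneousComponent 3 (translate ![0, 0, z] (F m q)) = cz m q z := by
  rw [translate_F h2 h9 h10 h11 h12 h13 h14, map_add,
    homogeneousComponent_of_mem ((mem_homogeneousSubmodule _ _).2 (cz_hom z)), if_pos rfl,
    homogeneousComponent_of_mem ((mem_homogeneousSubmodule _ _).2 rz_hom), if_neg (by norm_num),
    add_zero]

theorem dcz0 (z : ℂ) : eval p (pderiv 0 (cz m q z)) =
    3 * m 0 * p 0 ^ 2 + 2 * m 1 * p 0 * p 1 + z * (3 * q 5 * p 0 ^ 2 + 2 * q 6 * p 0 * p 1 +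
      q 7 * p 1 ^ 2) := by
  simp only [cz, map_add, Derivation.leibniz, Derivation.leibniz_pow, pderiv_C, smul_eq_mul,
    pderiv_X_self, pderiv_X_of_ne (show (1 : Fin 3) ≠ 0 by decide),
    mul_zero, add_zero, zero_add,
    smul_zero, mul_one, nsmul_eq_mul, map_mul, map_pow, eval_C, eval_X, map_natCast]
  push_cast
  ring

theorem dcz1 (z : ℂ) : eval p (pderiv 1 (cz m q z)) =
    m 1 * p 0 ^ 2 + z * (q 6 * p 0 ^ 2 + 2 * q 7 * p 0 * p 1 + 3 * q 8 * p 1 ^ 2) := by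
  simp only [cz, map_add, Derivation.leibniz, Derivation.leibniz_pow, pderiv_C, smul_eq_mul,
    pderiv_X_self, pderiv_X_of_ne (show (0 : Fin 3) ≠ 1 by decide),
    mul_zero, add_zero, zero_add,
    smul_zero, mul_one, nsmul_eq_mul, map_mul, map_pow, eval_C, eval_X, map_natCast]
  push_cast
  ring

theorem double_root {z : ℂ} (h : ¬ Squarefree (cz m q z)) : ∃ p : Fin 3 → ℂ,
    (p 0 ≠ 0 ∨ p 1 ≠ 0) ∧
    3 * m 0 * p 0 ^ 2 + 2 * m 1 * p 0 * p 1 + z * (3 * q 5 * p 0 ^ 2 + 2 * q 6 * p 0 * p 1 +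
      q 7 * p 1 ^ 2) = 0 ∧
    m 1 * p 0 ^ 2 + z * (q 6 * p 0 ^ 2 + 2 * q 7 * p 0 * p 1 + 3 * q 8 * p 1 ^ 2) = 0 := by
  obtain ⟨p, hp, h0, h1⟩ : ∃ p : Fin 3 → ℂ, (p 0 ≠ 0 ∨ p 1 ≠ 0) ∧
      eval p (pderiv 0 (cz m q z)) = 0 ∧ eval p (pderiv 1 (cz m q z)) = 0 := by
    rcases LC.exists_square (cz_hom z) h with h | ⟨l, k, hl, -, -, hlk⟩
    · refine ⟨![1, 0, 0], Or.inl one_ne_zero, ?_, ?_⟩ <;> rw [h, map_zero, map_zero]
    · obtain ⟨c, hc⟩ := form_one hl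
      have hd : ∀ p : Fin 3 → ℂ, eval p l = 0 → ∀ i, eval p (pderiv i (cz m q z)) = 0 := by
        intro p hp i
        rw [hlk, Derivation.leibniz, Derivation.leibniz_pow]
        simp only [smul_eq_mul, map_add, map_mul, nsmul_eq_mul, map_pow, hp]
        ring
      by_cases hcc : c 0 = 0 ∧ c 1 = 0
      · refine ⟨![1, 0, 0], Or.inl one_ne_zero, hd _ ?_ 0, hd _ ?_ 1⟩ <;>
        · rw [hc]
          simp [hcc.1]
      · refine ⟨![c 1, - c 0, 0], ?_, hd _ ?_ 0, hd _ ?_ 1⟩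
        · by_cases h1 : c 1 = 0
          · right
            show - c 0 ≠ 0
            intro h0
            exact hcc ⟨neg_eq_zero.1 h0, h1⟩
          · exact Or.inl h1
        · rw [hc]
          simp
          ring
        · rw [hc]
          simp
          ring
  exact ⟨p, hp, by rw [← dcz0]; exact h0, by rw [← dcz1]; exact h1⟩

/-- There are finitely many bad points. -/
theorem bad_finite (h2 : m 2 = 0) (hm : m ≠ 0) (h : q 7 ≠ 0 ∨ q 8 ≠ 0) :
    {z : ℂ | ¬ Squarefree (cz m q z)}.Finite := by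
  classical
  let S : Set ℂ := {t | (9 * m 0 * q 8 + 3 * m 1 * q 7) * t ^ 2 + 3 * (m 0 * q 6 - m 1 * q 5) +
    6 * m 0 * q 7 * t + 6 * m 1 * q 8 * t ^ 3 = 0}
  have hS : S.Finite := by
    by_contra hcon
    have h1 := coef_zero (c := ![3 * (m 0 * q 6 - m 1 * q 5), 6 * m 0 * q 7,
      9 * m 0 * q 8 + 3 * m 1 * q 7, 6 * m 1 * q 8, 0]) hcon (by
      intro t ht
      show 3 * (m 0 * q 6 - m 1 * q 5) + 6 * m 0 * q 7 * t +
        (9 * m 0 * q 8 + 3 * m 1 * q 7) * t ^ 2 + 6 * m 1 * q 8 * t ^ 3 + 0 * t ^ 4 = 0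
      have ht' : (9 * m 0 * q 8 + 3 * m 1 * q 7) * t ^ 2 + 3 * (m 0 * q 6 - m 1 * q 5) +
        6 * m 0 * q 7 * t + 6 * m 1 * q 8 * t ^ 3 = 0 := ht
      linear_combination ht')
    have a1 : 6 * m 0 * q 7 = 0 := congrFun h1 1
    have a2 : 9 * m 0 * q 8 + 3 * m 1 * q 7 = 0 := congrFun h1 2
    have a3 : 6 * m 1 * q 8 = 0 := congrFun h1 3
    by_cases hm0 : m 0 = 0
    · have hm1 : m 1 ≠ 0 := by
        intro hm1
        apply hm
        funext i
        fin_cases i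
        · exact hm0
        · exact hm1
        · exact h2
      rcases h with h | h
      · rw [hm0] at a2
        simp [hm1, h] at a2
      · simp [hm1, h] at a3
    · have h7 : q 7 = 0 := by simpa [hm0] using a1
      rw [h7] at a2
      rcases h with h | h
      · exact h h7
      · simp [hm0, h] at a2
  let g : ℂ → ℂ := fun t => if m 1 = 0 then -3 * m 0 / (3 * q 5 + 2 * q 6 * t + q 7 * t ^ 2) else
    - m 1 / (q 6 + 2 * q 7 * t + 3 * q 8 * t ^ 2)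
  refine ((Set.finite_singleton 0).union (hS.image g)).subset fun z hz => ?_
  by_cases hz0 : z = 0
  · exact Or.inl hz0
  right
  obtain ⟨p, hp, e0, e1⟩ := double_root hz
  have hp0 : p 0 ≠ 0 := by
    intro hp0
    have hp1 := hp.resolve_left (fun h => h hp0)
    rw [hp0] at e0 e1
    rcases h with h | h
    · have : z * q 7 * p 1 ^ 2 = 0 := by linear_combination e0
      simp [hz0, h, hp1] at this
    · have : z * q 8 * p 1 ^ 2 = 0 := by linear_combination (1 / 3 : ℂ) * e1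
      simp [hz0, h, hp1] at this
  set t := p 1 / p 0 with ht
  have hpt : p 1 = t * p 0 := by rw [ht, div_mul_cancel₀ _ hp0]
  have f0 : 3 * m 0 + 2 * m 1 * t + z * (3 * q 5 + 2 * q 6 * t + q 7 * t ^ 2) = 0 := by
    have : p 0 ^ 2 * (3 * m 0 + 2 * m 1 * t + z * (3 * q 5 + 2 * q 6 * t + q 7 * t ^ 2)) = 0 := by
      rw [hpt] at e0
      linear_combination e0
    exact (mul_eq_zero.1 this).resolve_left (pow_ne_zero _ hp0)
  have f1 : m 1 + z * (q 6 + 2 * q 7 * t + 3 * q 8 * t ^ 2) = 0 := by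
    have : p 0 ^ 2 * (m 1 + z * (q 6 + 2 * q 7 * t + 3 * q 8 * t ^ 2)) = 0 := by
      rw [hpt] at e1
      linear_combination e1
    exact (mul_eq_zero.1 this).resolve_left (pow_ne_zero _ hp0)
  refine ⟨t, ?_, ?_⟩
  · show (9 * m 0 * q 8 + 3 * m 1 * q 7) * t ^ 2 + 3 * (m 0 * q 6 - m 1 * q 5) +
      6 * m 0 * q 7 * t + 6 * m 1 * q 8 * t ^ 3 = 0
    linear_combination (q 6 + 2 * q 7 * t + 3 * q 8 * t ^ 2) * f0 -
      (3 * q 5 + 2 * q 6 * t + q 7 * t ^ 2) * f1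
  · show (if m 1 = 0 then -3 * m 0 / (3 * q 5 + 2 * q 6 * t + q 7 * t ^ 2) else
      - m 1 / (q 6 + 2 * q 7 * t + 3 * q 8 * t ^ 2)) = z
    split_ifs with h1
    · have hm0 : m 0 ≠ 0 := by
        intro hm0
        apply hm
        funext i
        fin_cases i
        · exact hm0
        · exact h1
        · exact h2
      have hden : 3 * q 5 + 2 * q 6 * t + q 7 * t ^ 2 ≠ 0 := by
        intro hd
        rw [hd, h1] at f0
        apply hm0
        linear_combination (1 / 3 : ℂ) * f0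
      rw [div_eq_iff hden]
      rw [h1] at f0
      linear_combination -f0
    · have hden : q 6 + 2 * q 7 * t + 3 * q 8 * t ^ 2 ≠ 0 := by
        intro hd
        rw [hd] at f1
        apply h1
        linear_combination f1
      rw [div_eq_iff hden]
      linear_combination -f1

theorem T3.line (hm : m ≠ 0) (h : T3 (F m q) p) (_h9 : q 9 = 0) (h10 : q 10 = 0) (h11 : q 11 = 0)
    (h12 : q 12 = 0) (h13 : q 13 = 0) (h14 : q 14 = 0) (hq : q 7 ≠ 0 ∨ q 8 ≠ 0) :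
    p = ![0, 0, p 2] := by
  have h0 := h.x0 hm
  have hz := h.2.1 2
  have hxz := h.2.2 0 2
  rw [E2, h0] at hz
  rw [E02, h0] at hxz
  have h1 : p 1 = 0 := by
    rcases hq with hq | hq
    · have : q 7 * p 1 ^ 2 = 0 := by
        linear_combination hxz - 2 * p 2 * p 1 * h10 - 3 * p 2 ^ 2 * h12
      simpa [hq] using this
    · have : q 8 * p 1 ^ 3 = 0 := by
        linear_combination hz - 2 * p 2 * p 1 ^ 2 * h11 - 3 * p 2 ^ 2 * p 1 * h13 -
          4 * p 2 ^ 3 * h14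
      simpa [hq] using this
  funext i
  fin_cases i
  · exact h0
  · exact h1
  · rfl

theorem cov_gd (hm : m ≠ 0) (hl : QG.Loc (F m q))
    (h2 : m 2 = 0) (h9 : q 9 = 0) (h10 : q 10 = 0) (h11 : q 11 = 0)
    (h12 : q 12 = 0) (h13 : q 13 = 0) (h14 : q 14 = 0) (hq : q 7 ≠ 0 ∨ q 8 ≠ 0) :
    QG.Cov (F m q) (Bad (F m q)) := by
  refine QG.Cov.finite hl (((bad_finite h2 hm hq).image fun z => ![0, 0, z]).subset ?_) bad_subset
  rintro p ⟨hp, hs⟩
  have h := hp.line hm h9 h10 h11 h12 h13 h14 hq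
  refine ⟨p 2, ?_, h.symm⟩
  rw [h, comp_F h2 h9 h10 h11 h12 h13 h14] at hs
  exact hs

end QH

end MPb07157
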