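import Pool.Agent.Lib.MP_b07157_agQH.Fin

/-!
# Quartics which are triple along a line
-/

noncomputable section

namespace MPb07157

open MvPolynomial

namespace QH

variable {m : Fin 3 → ℂ} {q : Fin 15 → ℂ} {p : Fin 3 → ℂ}

theorem init1 {A B : ℂ} (hA : A ≠ 0) (hB : B ≠ 0) {y : Fin 2 → ℂ} (hy : y ≠ 0) :
    ∃ j, eval y (pderiv j (C A * (X 0 ^ 2 * X 1) + C B * X 1 ^ 4 :
      MvPolynomial (Fin 2) ℂ)) ≠ 0 := by
  by_contra hcon
  push Not at hcon
  have h0 := hcon 0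
  have h1 := hcon 1
  simp only [map_add, Derivation.leibniz, Derivation.leibniz_pow, pderiv_C, smul_eq_mul,
    pderiv_X_self, pderiv_X_of_ne (show (1 : Fin 2) ≠ 0 by decide), mul_zero, add_zero, zero_add,
    smul_zero, mul_one, nsmul_eq_mul, map_mul, map_pow, eval_C, eval_X, map_natCast] at h0
  simp only [map_add, Derivation.leibniz, Derivation.leibniz_pow, pderiv_C, smul_eq_mul,
    pderiv_X_self, pderiv_X_of_ne (show (0 : Fin 2) ≠ 1 by decide), mul_zero, add_zero, zero_add,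
    smul_zero, mul_one, nsmul_eq_mul, map_mul, map_pow, eval_C, eval_X, map_natCast] at h1
  push_cast at h0 h1
  have a0 : A * (y 0 * y 1) = 0 := by linear_combination (1 / 2 : ℂ) * h0
  have a1 : A * y 0 ^ 2 + 4 * B * y 1 ^ 3 = 0 := by linear_combination h1
  apply hy
  rcases mul_eq_zero.1 ((mul_eq_zero.1 a0).resolve_left hA) with h | h
  · rw [h] at a1
    have h' : y 1 = 0 := by simpa [hB] using a1
    funext i
    fin_cases i
    · exact h
    · exact h'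
  · rw [h] at a1
    have h' : y 0 = 0 := by simpa [hA] using a1
    funext i
    fin_cases i
    · exact h'
    · exact h

theorem init2 {A B : ℂ} (hA : A ≠ 0) (hB : B ≠ 0) {y : Fin 2 → ℂ} (hy : y ≠ 0) :
    ∃ j, eval y (pderiv j (C A * (X 0 ^ 2 * X 1) + C B * (X 0 * X 1 ^ 3) :
      MvPolynomial (Fin 2) ℂ)) ≠ 0 := by
  by_contra hcon
  push Not at hcon
  have h0 := hcon 0
  have h1 := hcon 1
  simp only [map_add, Derivation.leibniz, Derivation.leibniz_pow, pderiv_C, smul_eq_mul,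
    pderiv_X_self, pderiv_X_of_ne (show (1 : Fin 2) ≠ 0 by decide), mul_zero, add_zero, zero_add,
    smul_zero, mul_one, nsmul_eq_mul, map_mul, map_pow, eval_C, eval_X, map_natCast] at h0
  simp only [map_add, Derivation.leibniz, Derivation.leibniz_pow, pderiv_C, smul_eq_mul,
    pderiv_X_self, pderiv_X_of_ne (show (0 : Fin 2) ≠ 1 by decide), mul_zero, add_zero, zero_add,
    smul_zero, mul_one, nsmul_eq_mul, map_mul, map_pow, eval_C, eval_X, map_natCast] at h1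
  push_cast at h0 h1
  have a0 : 2 * A * (y 0 * y 1) + B * y 1 ^ 3 = 0 := by linear_combination h0
  have a1 : A * y 0 ^ 2 + 3 * B * y 0 * y 1 ^ 2 = 0 := by linear_combination h1
  have a2 : B * y 1 ^ 5 = 0 := by
    have : (5 / 2 : ℂ) * B * (B * y 1 ^ 5) = 0 := by
      linear_combination (A * y 0 + (5 / 2 : ℂ) * B * y 1 ^ 2) * a0 - 2 * A * y 1 * a1
    have h5 : (5 / 2 : ℂ) * B ≠ 0 := mul_ne_zero (by norm_num) hB
    exact (mul_eq_zero.1 this).resolve_left h5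
  have h' : y 1 = 0 := by simpa [hB] using a2
  rw [h'] at a1
  have h : y 0 = 0 := by simpa [hA] using a1
  apply hy
  funext i
  fin_cases i
  · exact h
  · exact h'

theorem init3 {A B : ℂ} (hA : A ≠ 0) (hB : B ≠ 0) {y : Fin 2 → ℂ} (hy : y ≠ 0) :
    ∃ j, eval y (pderiv j (C A * X 0 ^ 3 + C B * X 1 ^ 4 :
      MvPolynomial (Fin 2) ℂ)) ≠ 0 := by
  by_contra hcon
  push Not at hcon
  have h0 := hcon 0
  have h1 := hcon 1
  simp only [map_add, Derivation.leibniz, Derivation.leibniz_pow, pderiv_C, smul_eq_mul,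
    pderiv_X_self, pderiv_X_of_ne (show (1 : Fin 2) ≠ 0 by decide), mul_zero, add_zero, zero_add,
    smul_zero, mul_one, nsmul_eq_mul, map_mul, map_pow, eval_C, eval_X, map_natCast] at h0
  simp only [map_add, Derivation.leibniz, Derivation.leibniz_pow, pderiv_C, smul_eq_mul,
    pderiv_X_self, pderiv_X_of_ne (show (0 : Fin 2) ≠ 1 by decide), mul_zero, add_zero, zero_add,
    smul_zero, mul_one, nsmul_eq_mul, map_mul, map_pow, eval_C, eval_X, map_natCast] at h1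
  push_cast at h0 h1
  have a0 : y 0 = 0 := by simpa [hA] using h0
  have a1 : y 1 = 0 := by simpa [hB] using h1
  apply hy
  funext i
  fin_cases i
  · exact a0
  · exact a1

theorem init4 {A B : ℂ} (hA : A ≠ 0) (hB : B ≠ 0) {y : Fin 2 → ℂ} (hy : y ≠ 0) :
    ∃ j, eval y (pderiv j (C A * X 0 ^ 3 + C B * (X 0 * X 1 ^ 3) :
      MvPolynomial (Fin 2) ℂ)) ≠ 0 := by
  by_contra hcon
  push Not at hcon
  have h0 := hcon 0
  have h1 := hcon 1
  simp only [map_add, Derivation.leibniz, Derivation.leibniz_pow, pderiv_C, smul_eq_mul,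
    pderiv_X_self, pderiv_X_of_ne (show (1 : Fin 2) ≠ 0 by decide), mul_zero, add_zero, zero_add,
    smul_zero, mul_one, nsmul_eq_mul, map_mul, map_pow, eval_C, eval_X, map_natCast] at h0
  simp only [map_add, Derivation.leibniz, Derivation.leibniz_pow, pderiv_C, smul_eq_mul,
    pderiv_X_self, pderiv_X_of_ne (show (0 : Fin 2) ≠ 1 by decide), mul_zero, add_zero, zero_add,
    smul_zero, mul_one, nsmul_eq_mul, map_mul, map_pow, eval_C, eval_X, map_natCast] at h1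
  push_cast at h0 h1
  have a0 : 3 * A * y 0 ^ 2 + B * y 1 ^ 3 = 0 := by linear_combination h0
  have a1 : B * (y 0 * y 1 ^ 2) = 0 := by linear_combination (1 / 3 : ℂ) * h1
  apply hy
  rcases mul_eq_zero.1 ((mul_eq_zero.1 a1).resolve_left hB) with h | h
  · rw [h] at a0
    have h' : y 1 = 0 := by simpa [hB] using a0
    funext i
    fin_cases i
    · exact h
    · exact h'
  · have h' : y 1 = 0 := by simpa using h
    rw [h'] at a0
    have h'' : y 0 = 0 := by simpa [hA] using a0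
    funext i
    fin_cases i
    · exact h''
    · exact h'

theorem T3.line2 (hm : m ≠ 0) (h : T3 (F m q) p) (h7 : q 7 = 0) (h8 : q 8 = 0) (h10 : q 10 = 0)
    (h11 : q 11 = 0) (h12 : q 12 = 0) (h13 : q 13 = 0) (hq : q 3 ≠ 0 ∨ q 4 ≠ 0) :
    p 0 = 0 ∧ p 1 = 0 := by
  have h0 := h.x0 hm
  have hx := h.2.1 0
  have hy := h.2.1 1
  rw [E0, h0] at hx
  rw [E1, h0] at hy
  refine ⟨h0, ?_⟩
  rcases hq with hq | hq
  · have : q 3 * p 1 ^ 3 = 0 := by
      linear_combination hx - p 2 * p 1 ^ 2 * h7 - p 2 ^ 2 * p 1 * h10 - p 2 ^ 3 * h12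
    simpa [hq] using this
  · have : q 4 * p 1 ^ 3 = 0 := by
      linear_combination (1 / 4 : ℂ) * (hy - 3 * p 2 * p 1 ^ 2 * h8 - 2 * p 2 ^ 2 * p 1 * h11 -
        p 2 ^ 3 * h13)
    simpa [hq] using this

variable (h2 : m 2 = 0) (h7 : q 7 = 0) (h8 : q 8 = 0) (h9 : q 9 = 0) (h10 : q 10 = 0)
  (h11 : q 11 = 0) (h12 : q 12 = 0) (h13 : q 13 = 0) (h14 : q 14 = 0)

include h2 h7 h8 h9 h10 h11 h12 h13 h14

theorem sqh1 (h4 : q 4 ≠ 0) :
    SqhAlong (F m q) {p | p 0 = 0 ∧ p 1 = 0 ∧ m 1 + q 6 * p 2 ≠ 0} ![3, 2] 8 := by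
  refine sqhAlong_line (m := 7) (by norm_num) (fun j => by fin_cases j <;> decide)
    ![![3, 0], ![2, 1], ![4, 0], ![3, 1], ![2, 2], ![1, 3], ![0, 4]]
    ![C (m 0) + C (q 5) * X 2, C (m 1) + C (q 6) * X 2, C (q 0), C (q 1), C (q 2), C (q 3),
      C (q 4)] ?_ (fun i => by fin_cases i <;> decide) (fun p hp => ⟨hp.1, hp.2.1⟩) ?_
  · unfold F
    simp only [h2, h7, h8, h9, h10, h11, h12, h13, h14, map_zero]
    simp [Fin.sum_univ_succ]
    ring
  · rintro p ⟨-, -, hp⟩ y hy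
    obtain ⟨j, hj⟩ := init1 hp h4 hy
    refine ⟨j, ?_⟩
    convert hj using 3
    simp [Fin.sum_univ_succ]

theorem sqh2 (h3 : q 3 ≠ 0) (h4 : q 4 = 0) :
    SqhAlong (F m q) {p | p 0 = 0 ∧ p 1 = 0 ∧ m 1 + q 6 * p 2 ≠ 0} ![2, 1] 5 := by
  refine sqhAlong_line (m := 6) (by norm_num) (fun j => by fin_cases j <;> decide)
    ![![3, 0], ![2, 1], ![4, 0], ![3, 1], ![2, 2], ![1, 3]]
    ![C (m 0) + C (q 5) * X 2, C (m 1) + C (q 6) * X 2, C (q 0), C (q 1), C (q 2), C (q 3)]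
    ?_ (fun i => by fin_cases i <;> decide) (fun p hp => ⟨hp.1, hp.2.1⟩) ?_
  · unfold F
    simp only [h2, h4, h7, h8, h9, h10, h11, h12, h13, h14, map_zero]
    simp [Fin.sum_univ_succ]
    ring
  · rintro p ⟨-, -, hp⟩ y hy
    obtain ⟨j, hj⟩ := init2 hp h3 hy
    refine ⟨j, ?_⟩
    convert hj using 3
    simp [Fin.sum_univ_succ]

theorem sqh3 (hm0 : m 0 ≠ 0) (hm1 : m 1 = 0) (h5 : q 5 = 0) (h6 : q 6 = 0) (h4 : q 4 ≠ 0) :
    SqhAlong (F m q) {p | p 0 = 0 ∧ p 1 = 0} ![4, 3] 12 := by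
  refine sqhAlong_line (m := 6) (by norm_num) (fun j => by fin_cases j <;> decide)
    ![![3, 0], ![4, 0], ![3, 1], ![2, 2], ![1, 3], ![0, 4]]
    ![C (m 0), C (q 0), C (q 1), C (q 2), C (q 3), C (q 4)]
    ?_ (fun i => by fin_cases i <;> decide) (fun p hp => ⟨hp.1, hp.2⟩) ?_
  · unfold F
    simp only [h2, hm1, h5, h6, h7, h8, h9, h10, h11, h12, h13, h14, map_zero]
    simp [Fin.sum_univ_succ]
    ring
  · rintro p - y hy
    obtain ⟨j, hj⟩ := init3 hm0 h4 hy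
    refine ⟨j, ?_⟩
    convert hj using 3
    simp [Fin.sum_univ_succ]

theorem sqh4 (hm0 : m 0 ≠ 0) (hm1 : m 1 = 0) (h5 : q 5 = 0) (h6 : q 6 = 0) (h3 : q 3 ≠ 0)
    (h4 : q 4 = 0) : SqhAlong (F m q) {p | p 0 = 0 ∧ p 1 = 0} ![3, 2] 9 := by
  refine sqhAlong_line (m := 5) (by norm_num) (fun j => by fin_cases j <;> decide)
    ![![3, 0], ![4, 0], ![3, 1], ![2, 2], ![1, 3]]
    ![C (m 0), C (q 0), C (q 1), C (q 2), C (q 3)]
    ?_ (fun i => by fin_cases i <;> decide) (fun p hp => ⟨hp.1, hp.2⟩) ?_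
  · unfold F
    simp only [h2, hm1, h4, h5, h6, h7, h8, h9, h10, h11, h12, h13, h14, map_zero]
    simp [Fin.sum_univ_succ]
    ring
  · rintro p - y hy
    obtain ⟨j, hj⟩ := init4 hm0 h3 hy
    refine ⟨j, ?_⟩
    convert hj using 3
    simp [Fin.sum_univ_succ]

theorem cov_nf2 (hm : m ≠ 0) (hn : QG.NoQ (F m q)) (hl : QG.Loc (F m q))
    (hq : q 3 ≠ 0 ∨ q 4 ≠ 0) : QG.Cov (F m q) (Bad (F m q)) := by
  classical
  have hquad : ¬ ∃ z : ℂ, m 0 + q 5 * z = 0 ∧ m 1 + q 6 * z = 0 := by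
    rintro ⟨z, hz0, hz1⟩
    refine noQ_false hn (p := ![0, 0, z]) ?_
    rw [translate_F h2 h9 h10 h11 h12 h13 h14]
    have hc : cz m q z = 0 := by
      have e0 : (C (m 0) + C (q 5) * C z : MvPolynomial (Fin 3) ℂ) = 0 := by
        rw [← map_mul, ← map_add, hz0, map_zero]
      have e1 : (C (m 1) + C (q 6) * C z : MvPolynomial (Fin 3) ℂ) = 0 := by
        rw [← map_mul, ← map_add, hz1, map_zero]
      unfold cz
      rw [h7, h8, map_zero]
      linear_combination X 0 ^ 3 * e0 + X 0 ^ 2 * X 1 * e1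
    rw [hc, zero_add]
    exact rz_hom
  have hc01 : IsConstr {p : Fin 3 → ℂ | p 0 = 0 ∧ p 1 = 0} := by
    have h := isConstr_setOf_and (isConstr_eq_zero (X 0 : MvPolynomial (Fin 3) ℂ))
      (isConstr_eq_zero (X 1 : MvPolynomial (Fin 3) ℂ))
    simpa using h
  by_cases hline : m 1 = 0 ∧ q 6 = 0
  · obtain ⟨hm1, h6⟩ := hline
    have hm0 : m 0 ≠ 0 := by
      intro hm0
      apply hm
      funext i
      fin_cases i
      · exact hm0
      · exact hm1
      · exact h2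
    have h5 : q 5 = 0 := by
      by_contra h5
      apply hquad
      refine ⟨- m 0 / q 5, ?_, ?_⟩
      · rw [mul_div_cancel₀ _ h5]
        ring
      · rw [hm1, h6]
        ring
    have hgood : CC.GoodT (F m q) {p | p 0 = 0 ∧ p 1 = 0} := by
      by_cases h4 : q 4 = 0
      · exact Or.inl (Or.inl ⟨_, _, _, sqh4 h2 h7 h8 h9 h10 h11 h12 h13 h14 hm0 hm1 h5 h6
          (hq.resolve_right fun h => h h4) h4⟩)
      · exact Or.inl (Or.inl ⟨_, _, _, sqh3 h2 h7 h8 h9 h10 h11 h12 h13 h14 hm0 hm1 h5 h6 h4⟩)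
    exact (QG.Cov.one hc01 hgood).mono fun p hp => hp.1.line2 hm h7 h8 h10 h11 h12 h13 hq
  · have hgood : CC.GoodT (F m q) {p | p 0 = 0 ∧ p 1 = 0 ∧ m 1 + q 6 * p 2 ≠ 0} := by
      by_cases h4 : q 4 = 0
      · exact Or.inl (Or.inl ⟨_, _, _, sqh2 h2 h7 h8 h9 h10 h11 h12 h13 h14
          (hq.resolve_right fun h => h h4) h4⟩)
      · exact Or.inl (Or.inl ⟨_, _, _, sqh1 h2 h7 h8 h9 h10 h11 h12 h13 h14 h4⟩)
    have hcW : IsConstr {p : Fin 3 → ℂ | p 0 = 0 ∧ p 1 = 0 ∧ m 1 + q 6 * p 2 ≠ 0} := by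
      have h := isConstr_setOf_and (isConstr_eq_zero (X 0 : MvPolynomial (Fin 3) ℂ))
        (isConstr_setOf_and (isConstr_eq_zero (X 1 : MvPolynomial (Fin 3) ℂ))
          (isConstr_ne_zero (C (m 1) + C (q 6) * X 2 : MvPolynomial (Fin 3) ℂ)))
      simpa using h
    have hfin : QG.Cov (F m q) (Bad (F m q) ∩ {![0, 0, - m 1 / q 6]}) :=
      QG.Cov.finite hl ((Set.finite_singleton _).subset Set.inter_subset_right)
        (Set.inter_subset_left.trans bad_subset)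
    refine ((QG.Cov.one hcW hgood).union hfin).mono fun p hp => ?_
    obtain ⟨h0, h1⟩ := hp.1.line2 hm h7 h8 h10 h11 h12 h13 hq
    by_cases hz : m 1 + q 6 * p 2 = 0
    · right
      refine ⟨hp, ?_⟩
      have h6 : q 6 ≠ 0 := by
        intro h6
        rw [h6, zero_mul, add_zero] at hz
        exact hline ⟨hz, h6⟩
      show p = ![0, 0, - m 1 / q 6]
      funext i
      fin_cases i
      · exact h0
      · exact h1
      · show p 2 = - m 1 / q 6
        rw [eq_div_iff h6]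
        linear_combination hz
    · exact Or.inl ⟨h0, h1, hz⟩

end QH

end MPb07157
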