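import Pool.Agent.Lib.MP_b07157_agQH.NF1
import Pool.Agent.Lib.MP_b07157_agQH.NF2
import Pool.Agent.Lib.MP_b07157_agQH.Ac

/-!
# The covering of the triple points of a quartic surface
-/

noncomputable section

namespace MPb07157

open MvPolynomial

namespace QH

variable {m : Fin 3 → ℂ} {q : Fin 15 → ℂ} {p : Fin 3 → ℂ}

/-- The linear form. -/
def lin (m : Fin 3 → ℂ) : MvPolynomial (Fin 3) ℂ := C (m 0) * X 0 + C (m 1) * X 1 + C (m 2) * X 2

theorem lin_hom : (lin m).IsHomogeneous 1 :=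
  (((isHomogeneous_X _ 0).C_mul _).add ((isHomogeneous_X _ 1).C_mul _)).add
    ((isHomogeneous_X _ 2).C_mul _)

theorem lin_ne_zero (hm : m ≠ 0) : lin m ≠ 0 := by
  intro h
  apply hm
  funext i
  have h1 : ∀ p, eval p (lin m) = 0 := fun p => by rw [h, map_zero]
  have e : ∀ p : Fin 3 → ℂ, eval p (lin m) = m 0 * p 0 + m 1 * p 1 + m 2 * p 2 := fun p => by
    simp [lin]
  fin_cases i
  · have := h1 ![1, 0, 0]
    rw [e] at this
    simpa using this
  · have := h1 ![0, 1, 0]
    rw [e] at this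
    simpa using this
  · have := h1 ![0, 0, 1]
    rw [e] at this
    simpa using this

/-- The quartic part. -/
def qt (q : Fin 15 → ℂ) : MvPolynomial (Fin 3) ℂ :=
  (C (q 0) * X 0 ^ 4 + C (q 1) * (X 0 ^ 3 * X 1) + C (q 2) * (X 0 ^ 2 * X 1 ^ 2) +
    C (q 3) * (X 0 * X 1 ^ 3) + C (q 4) * X 1 ^ 4) +
  X 2 * (C (q 5) * X 0 ^ 3 + C (q 6) * (X 0 ^ 2 * X 1) + C (q 7) * (X 0 * X 1 ^ 2) +
    C (q 8) * X 1 ^ 3) +
  X 2 ^ 2 * (C (q 9) * X 0 ^ 2 + C (q 10) * (X 0 * X 1) + C (q 11) * X 1 ^ 2) +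
  X 2 ^ 3 * (C (q 12) * X 0 + C (q 13) * X 1) + C (q 14) * X 2 ^ 4

theorem F_eq : F m q = X 0 ^ 2 * lin m + qt q := by
  unfold F lin qt
  ring

theorem qt_hom : (qt q).IsHomogeneous 4 := by
  have h9 : (X 2 ^ 2 * (C (q 9) * X 0 ^ 2 + C (q 10) * (X 0 * X 1) + C (q 11) * X 1 ^ 2) :
      MvPolynomial (Fin 3) ℂ).IsHomogeneous (2 + 2) :=
    (hX 2 2).mul ((((hX 0 2).C_mul _).add
      (((isHomogeneous_X _ 0).mul (isHomogeneous_X _ 1)).C_mul _)).add ((hX 1 2).C_mul _))
  have h12 : (X 2 ^ 3 * (C (q 12) * X 0 + C (q 13) * X 1) :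
      MvPolynomial (Fin 3) ℂ).IsHomogeneous (3 + 1) :=
    (hX 2 3).mul (((isHomogeneous_X _ 0).C_mul _).add ((isHomogeneous_X _ 1).C_mul _))
  exact ((rz_hom.add h9).add h12).add ((hX 2 4).C_mul _)

theorem comps_F : (∀ j < 3, homogeneousComponent j (F m q) = 0) ∧
    homogeneousComponent 3 (F m q) = X 0 ^ 2 * lin m := by
  have h3 : (X 0 ^ 2 * lin m).IsHomogeneous 3 := (hX 0 2).mul lin_hom
  constructor
  · intro j hj
    rw [F_eq, map_add, homogeneousComponent_of_mem ((mem_homogeneousSubmodule _ _).2 h3),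
      homogeneousComponent_of_mem ((mem_homogeneousSubmodule _ _).2 qt_hom),
      if_neg (by omega), if_neg (by omega), add_zero]
  · rw [F_eq, map_add, homogeneousComponent_of_mem ((mem_homogeneousSubmodule _ _).2 h3),
      homogeneousComponent_of_mem ((mem_homogeneousSubmodule _ _).2 qt_hom),
      if_pos rfl, if_neg (by norm_num), add_zero]

theorem ac_subM {M : Matrix (Fin 3) (Fin 3) ℂ} (hM : M.det ≠ 0) (p₀ : Fin 3 → ℂ)
    (g : MvPolynomial (Fin 3) ℂ) :
    g = aeval (QG.ac M⁻¹ p₀) (aeval (LC.subM M) (translate p₀ g)) := by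
  refine MvPolynomial.funext fun x => ?_
  rw [eval_aeval_ac, LC.eval_subM, Matrix.mulVec_mulVec, Matrix.mul_nonsing_inv _ (isUnit_iff_ne_zero.2 hM),
    Matrix.one_mulVec, D5.eval_translate', sub_add_cancel]

theorem translate_zero (g : MvPolynomial (Fin 3) ℂ) : translate 0 g = g := by
  refine MvPolynomial.funext fun x => ?_
  rw [D5.eval_translate', add_zero]

theorem inv_det {M : Matrix (Fin 3) (Fin 3) ℂ} (hM : M.det ≠ 0) : M⁻¹.det ≠ 0 := by
  rw [Matrix.det_nonsing_inv, Ring.inverse_eq_inv']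
  exact inv_ne_zero hM

/-- A linear change of coordinates which fixes `x_0` and moves `(0, 0, 1)` to a point of the plane. -/
theorem exists_matrix {e : Fin 3 → ℂ} (he : e ≠ 0) (he0 : e 0 = 0) :
    ∃ M : Matrix (Fin 3) (Fin 3) ℂ, M.det ≠ 0 ∧ LC.subM M 0 = X 0 ∧
      ∀ t : ℂ, M.mulVec ![0, 0, t] = t • e := by
  by_cases h2 : e 2 = 0
  · have h1 : e 1 ≠ 0 := by
      intro h1
      apply he
      funext i
      fin_cases i
      · exact he0
      · exact h1
      · exact h2
    refine ⟨!![1, 0, 0; 0, 0, e 1; 0, 1, 0], ?_, ?_, fun t => ?_⟩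
    · rw [Matrix.det_fin_three]
      simpa using h1
    · simp [LC.subM, Fin.sum_univ_three]
    · funext i
      fin_cases i
      · simp [Matrix.mulVec, dotProduct, Fin.sum_univ_three, he0]
      · simp [Matrix.mulVec, dotProduct, Fin.sum_univ_three, mul_comm]
      · simp [Matrix.mulVec, dotProduct, Fin.sum_univ_three, h2]
  · refine ⟨!![1, 0, 0; 0, 1, e 1; 0, 0, e 2], ?_, ?_, fun t => ?_⟩
    · rw [Matrix.det_fin_three]
      simpa using h2
    · simp [LC.subM, Fin.sum_univ_three]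
    · funext i
      fin_cases i
      · simp [Matrix.mulVec, dotProduct, Fin.sum_univ_three, he0]
      · simp [Matrix.mulVec, dotProduct, Fin.sum_univ_three, mul_comm]
      · simp [Matrix.mulVec, dotProduct, Fin.sum_univ_three, mul_comm]

/-- **The covering**, three triple points on the last axis. -/
theorem cov_line (hm : m ≠ 0) (hf : F m q ≠ 0) (hn : QG.NoQ (F m q)) (hl : QG.Loc (F m q))
    {t : ℂ} (ht : t ≠ 0) (ht1 : t ≠ 1) (h1 : T3 (F m q) ![0, 0, 1])
    (h2 : T3 (F m q) ![0, 0, t]) : QG.Cov (F m q) (QG.Tr (F m q)) := by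
  obtain ⟨hm2, h9, h10, h11, h12, h13, h14⟩ := case_one ht ht1 h1 h2
  by_cases hq : q 7 ≠ 0 ∨ q 8 ≠ 0
  · exact cov_of_bad hf (cov_gd hm hl hm2 h9 h10 h11 h12 h13 h14 hq)
  push Not at hq
  obtain ⟨h7, h8⟩ := hq
  by_cases hq : q 3 ≠ 0 ∨ q 4 ≠ 0
  · exact cov_of_bad hf (cov_nf2 hm2 h7 h8 h9 h10 h11 h12 h13 h14 hm hn hl hq)
  push Not at hq
  obtain ⟨h3, h4⟩ := hq
  exact cov_nf1 h3 h4 h7 h8 h10 h11 h12 h13 h14 hm hn hl

/-- **The covering**, if there is a triple point with non-reduced tangent cone at the origin. -/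
theorem cov_F (hm : m ≠ 0) (hf : F m q ≠ 0) (hd : (F m q).totalDegree ≤ 4)
    (hn : QG.NoQ (F m q)) (hl : QG.Loc (F m q)) : QG.Cov (F m q) (QG.Tr (F m q)) := by
  classical
  by_cases hfin : (QG.Tr (F m q)).Finite
  · exact QG.Cov.finite hl hfin subset_rfl
  by_cases hpair : ∃ e, T3 (F m q) e ∧ e ≠ 0 ∧ ∃ t : ℂ, t ≠ 0 ∧ t ≠ 1 ∧ T3 (F m q) (t • e)
  · obtain ⟨e, he, he0, t, ht, ht1, hte⟩ := hpair
    obtain ⟨M, hM, hM0, hMe⟩ := exists_matrix he0 (he.x0 hm)
    set g := aeval (LC.subM M) (F m q) with hg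
    have hac : F m q = aeval (QG.ac M⁻¹ 0) g := by
      have h := ac_subM hM 0 (F m q)
      rwa [translate_zero] at h
    have hgd : g.totalDegree ≤ 4 := totalDegree_subM M hd
    have hg0 : g ≠ 0 := subM_ne_zero M hM hf
    have hgn : QG.NoQ g := by
      refine noQ_ac (inv_det hM) (p₀ := 0) ?_
      rw [← hac]
      exact hn
    have hgl : QG.Loc g := by
      refine loc_ac (inv_det hM) (p₀ := 0) ?_
      rw [← hac]
      exact hl
    have hT1 : T3 g ![0, 0, 1] := by
      refine T3.subM M ?_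
      rw [hMe, one_smul]
      exact he
    have hT2 : T3 g ![0, 0, t] := by
      refine T3.subM M ?_
      rw [hMe]
      exact hte
    have hlow : ∀ j < 3, homogeneousComponent j g = 0 := fun j hj => by
      rw [hg, homogeneousComponent_subM, comps_F.1 j hj, map_zero]
    have h3 : homogeneousComponent 3 g = X 0 ^ 2 * aeval (LC.subM M) (lin m) := by
      rw [hg, homogeneousComponent_subM, comps_F.2, map_mul, map_pow, aeval_X, hM0]
    have hcov : QG.Cov g (QG.Tr g) := by
      clear_value g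
      obtain ⟨m', q', hm', rfl⟩ := exists_F hgd hlow (isHomogeneous_subM M lin_hom)
        (subM_ne_zero M hM (lin_ne_zero hm)) h3
      exact cov_line hm' hg0 hgn hgl ht ht1 hT1 hT2
    have h4 := cov_ac (inv_det hM) 0 hcov
    rw [← hac] at h4
    refine h4.mono fun x hx => ?_
    rw [hac] at hx
    exact (mem_Tr_ac (inv_det hM) 0 g x).1 hx
  · push Not at hpair
    obtain ⟨h3, h4, h7, h8, h10, h11, h12, h13, h14⟩ := case_two hm hfin hpair
    exact cov_nf1 h3 h4 h7 h8 h10 h11 h12 h13 h14 hm hn hl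

/-- **The covering of the triple points of a quartic surface.** -/
theorem exists_cover {g : MvPolynomial (Fin 3) ℂ} (hg : g ≠ 0) (hd : g.totalDegree ≤ 4)
    (hn : QG.NoQ g) (hl : QG.Loc g) : QG.Cov g (QG.Tr g) := by
  classical
  by_cases hbad : ∃ p, p ∈ Bad g
  swap
  · exact cov_of_bad hg (QG.Cov.finite hl (Set.finite_empty.subset fun p hp =>
      hbad ⟨p, hp⟩) bad_subset)
  obtain ⟨p, hp, hs⟩ := hbad
  have hlow := t3_iff.1 hp
  rcases LC.exists_square (homogeneousComponent_isHomogeneous 3 (translate p g)) hs with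
    h | ⟨l, k, hl1, hl0, hk, hlk⟩
  · exfalso
    refine noQ_false hn (p := p) (SE4.isHomogeneous_four
      ((D5.totalDegree_translate_le p g).trans hd) fun j hj => ?_)
    rcases Nat.lt_or_ge j 3 with h' | h'
    · exact hlow j h'
    · have : j = 3 := by omega
      rw [this, h]
  · have hk0 : k ≠ 0 := by
      rintro rfl
      rw [mul_zero] at hlk
      refine noQ_false hn (p := p) (SE4.isHomogeneous_four
        ((D5.totalDegree_translate_le p g).trans hd) fun j hj => ?_)
      rcases Nat.lt_or_ge j 3 with h' | h'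
      · exact hlow j h'
      · have : j = 3 := by omega
        rw [this, hlk]
    obtain ⟨M, hM, hMl⟩ := LC.exists_coordM hl1 hl0
    have hac := ac_subM hM p g
    set g' := aeval (LC.subM M) (translate p g) with hg'
    have hgd : g'.totalDegree ≤ 4 :=
      totalDegree_subM M ((D5.totalDegree_translate_le p g).trans hd)
    have hg0 : g' ≠ 0 := subM_ne_zero M hM (translate_ne_zero hg p)
    have hgn : QG.NoQ g' := by
      refine noQ_ac (inv_det hM) (p₀ := p) ?_
      rw [← hac]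
      exact hn
    have hgl : QG.Loc g' := by
      refine loc_ac (inv_det hM) (p₀ := p) ?_
      rw [← hac]
      exact hl
    have hlow' : ∀ j < 3, homogeneousComponent j g' = 0 := fun j hj => by
      rw [hg', homogeneousComponent_subM, hlow j hj, map_zero]
    have h3 : homogeneousComponent 3 g' = X 0 ^ 2 * aeval (LC.subM M) k := by
      rw [hg', homogeneousComponent_subM, hlk, map_mul, map_pow, hMl]
    have hcov : QG.Cov g' (QG.Tr g') := by
      clear_value g'
      obtain ⟨m', q', hm', rfl⟩ := exists_F hgd hlow' (isHomogeneous_subM M hk)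
        (subM_ne_zero M hM hk0) h3
      exact cov_F hm' hg0 hgd hgn hgl
    have h4 := cov_ac (inv_det hM) p hcov
    rw [← hac] at h4
    refine h4.mono fun x hx => ?_
    rw [hac] at hx
    exact (mem_Tr_ac (inv_det hM) p g' x).1 hx

end QH

end MPb07157
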