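import Pool.Agent.Lib.MP_b07157_agQH.Fin

/-!
# Quartics with a double plane
-/

noncomputable section

namespace MPb07157

open MvPolynomial

namespace QH

variable {m : Fin 3 → ℂ} {q : Fin 15 → ℂ} {p : Fin 3 → ℂ}

/-- The residual quadric. -/
def Qd (m : Fin 3 → ℂ) (q : Fin 15 → ℂ) : MvPolynomial (Fin 3) ℂ :=
  C (m 0) * X 0 + C (m 1) * X 1 + C (m 2) * X 2 + C (q 0) * X 0 ^ 2 + C (q 1) * (X 0 * X 1) +
    C (q 2) * X 1 ^ 2 + C (q 5) * (X 0 * X 2) + C (q 6) * (X 1 * X 2) + C (q 9) * X 2 ^ 2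

theorem eval_Qd : eval p (Qd m q) =
    m 0 * p 0 + m 1 * p 1 + m 2 * p 2 + q 0 * p 0 ^ 2 + q 1 * (p 0 * p 1) +
    q 2 * p 1 ^ 2 + q 5 * (p 0 * p 2) + q 6 * (p 1 * p 2) + q 9 * p 2 ^ 2 := by
  simp only [Qd, map_add, map_mul, map_pow, eval_C, eval_X]

theorem eval_Qd1 : eval p (pderiv 1 (Qd m q)) =
    m 1 + q 1 * p 0 + 2 * q 2 * p 1 + q 6 * p 2 := by
  simp only [Qd, map_add, Derivation.leibniz, Derivation.leibniz_pow, pderiv_C, smul_eq_mul,
    pderiv_X_self, pderiv_X_of_ne (show (0 : Fin 3) ≠ 1 by decide),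
    pderiv_X_of_ne (show (2 : Fin 3) ≠ 1 by decide), mul_zero, add_zero, zero_add,
    smul_zero, mul_one, nsmul_eq_mul, map_mul, map_pow, eval_C, eval_X, map_natCast]
  push_cast
  ring

theorem eval_Qd2 : eval p (pderiv 2 (Qd m q)) =
    m 2 + q 5 * p 0 + q 6 * p 1 + 2 * q 9 * p 2 := by
  simp only [Qd, map_add, Derivation.leibniz, Derivation.leibniz_pow, pderiv_C, smul_eq_mul,
    pderiv_X_self, pderiv_X_of_ne (show (0 : Fin 3) ≠ 2 by decide),
    pderiv_X_of_ne (show (1 : Fin 3) ≠ 2 by decide), mul_zero, add_zero, zero_add,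
    smul_zero, mul_one, nsmul_eq_mul, map_mul, map_pow, eval_C, eval_X, map_natCast]
  push_cast
  ring

/-- Where the quadric is transversal to the plane. -/
theorem good_smooth : CC.GoodT (X 0 ^ 2 * Qd m q) {p | p 0 = 0 ∧ eval p (Qd m q) = 0 ∧
    (eval p (pderiv 1 (Qd m q)) ≠ 0 ∨ eval p (pderiv 2 (Qd m q)) ≠ 0)} := by
  refine Or.inr ⟨2, X 0 ^ 2 * X 1, fun h h0 => SU.smcLoc_corank h h0 (by omega),
    ![X 0, Qd m q], 1, 1, 1, fun x _ => ?_, fun p hp => ⟨by simp, by simp, by simp,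
      fun j => ?_, ?_⟩⟩
  · simp only [map_one, one_mul, div_one, map_mul, map_pow, eval_X]
    show _ = (eval x (X 0)) ^ 2 * eval x (Qd m q)
    rw [eval_X]
  · fin_cases j
    · simpa using hp.1
    · exact hp.2.1
  · rw [Fintype.linearIndependent_iff]
    intro g hg j
    have e0 := congrFun hg 0
    have e1 := congrFun hg 1
    have e2 := congrFun hg 2
    simp [Fin.sum_univ_two, pderiv_X] at e0 e1 e2
    have hg1 : g 1 = 0 := by
      rcases hp.2.2 with h | h
      · exact e1.resolve_right h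
      · exact e2.resolve_right h
    rw [hg1, zero_mul, add_zero] at e0
    fin_cases j
    · exact e0
    · exact hg1

theorem constr_smooth : IsConstr {p : Fin 3 → ℂ | p 0 = 0 ∧ eval p (Qd m q) = 0 ∧
    (eval p (pderiv 1 (Qd m q)) ≠ 0 ∨ eval p (pderiv 2 (Qd m q)) ≠ 0)} := by
  have h := isConstr_setOf_and (isConstr_eq_zero (X 0 : MvPolynomial (Fin 3) ℂ))
    (isConstr_setOf_and (isConstr_eq_zero (Qd m q))
      (isConstr_setOf_or (isConstr_ne_zero (pderiv 1 (Qd m q)))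
        (isConstr_ne_zero (pderiv 2 (Qd m q)))))
  simpa using h

/-- The affine form. -/
def Lf (m : Fin 3 → ℂ) (q : Fin 15 → ℂ) : MvPolynomial (Fin 3) ℂ :=
  C (m 0) + C (q 0) * X 0 + C (q 1) * X 1 + C (q 5) * X 2

/-- A quadric tangent to the plane along a line. -/
theorem good_tangent {a b : ℂ} (hab : a ≠ 0 ∨ b ≠ 0) :
    CC.GoodT (X 0 ^ 2 * ((C a * X 1 + C b * X 2) ^ 2 + X 0 * Lf m q))
      {p | p 0 = 0 ∧ a * p 1 + b * p 2 = 0 ∧ eval p (Lf m q) ≠ 0} := by
  refine Or.inr ⟨2, X 0 ^ 2 * (X 1 ^ 2 + X 0), fun h h0 => SU.smcLoc_corank h h0 (by omega),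
    ![X 0 * Lf m q, C a * X 1 + C b * X 2], Lf m q ^ 2, 1, 1, fun x _ => ?_, fun p hp =>
      ⟨by rw [map_pow]; exact pow_ne_zero _ hp.2.2, by simp, by simp, fun j => ?_, ?_⟩⟩
  · simp only [map_one, one_mul, div_one, map_mul, map_pow, eval_X, map_add]
    show _ = (eval x (X 0 * Lf m q)) ^ 2 * ((eval x (C a * X 1 + C b * X 2)) ^ 2 +
      eval x (X 0 * Lf m q))
    simp only [map_mul, map_add, eval_X, eval_C]
    ring
  · fin_cases j
    · show eval p (X 0 * Lf m q) = 0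
      rw [map_mul, eval_X, hp.1, zero_mul]
    · show eval p (C a * X 1 + C b * X 2) = 0
      simpa using hp.2.1
  · rw [Fintype.linearIndependent_iff]
    intro g hg j
    have e0 := congrFun hg 0
    have e1 := congrFun hg 1
    have e2 := congrFun hg 2
    simp [Fin.sum_univ_two, pderiv_X, hp.1, hp.2.2] at e0 e1 e2
    have hg1 : g 1 = 0 := by
      rcases hab with h | h
      · exact e1.resolve_right h
      · exact e2.resolve_right h
    fin_cases j
    · exact e0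
    · exact hg1

/-- A triple plane. -/
theorem good_cube : CC.GoodT (X 0 ^ 2 * (X 0 * Lf m q)) {p | p 0 = 0 ∧ eval p (Lf m q) ≠ 0} := by
  refine Or.inr ⟨1, X 0 ^ 3, fun h h0 => SU.smcLoc_corank h h0 (by omega),
    ![X 0], 1, Lf m q, 1, fun x _ => ?_, fun p hp => ⟨by simp, hp.2, by simp,
      fun j => ?_, ?_⟩⟩
  · simp only [map_one, one_mul, div_one, map_mul, map_pow, eval_X]
    show _ = _ * (eval x (X 0)) ^ 3
    rw [eval_X]
    ring
  · fin_cases j
    simpa using hp.1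
  · rw [Fintype.linearIndependent_iff]
    intro g hg j
    have e0 := congrFun hg 0
    simp [pderiv_X] at e0
    fin_cases j
    exact e0

theorem constr_tangent {a b : ℂ} :
    IsConstr {p : Fin 3 → ℂ | p 0 = 0 ∧ a * p 1 + b * p 2 = 0 ∧ eval p (Lf m q) ≠ 0} := by
  have h := isConstr_setOf_and (isConstr_eq_zero (X 0 : MvPolynomial (Fin 3) ℂ))
    (isConstr_setOf_and (isConstr_eq_zero (C a * X 1 + C b * X 2 : MvPolynomial (Fin 3) ℂ))
      (isConstr_ne_zero (Lf m q)))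
  simpa using h

theorem constr_cube : IsConstr {p : Fin 3 → ℂ | p 0 = 0 ∧ eval p (Lf m q) ≠ 0} := by
  have h := isConstr_setOf_and (isConstr_eq_zero (X 0 : MvPolynomial (Fin 3) ℂ))
    (isConstr_ne_zero (Lf m q))
  simpa using h

/-- A point of multiplicity four. -/
theorem quad_hom {a b : ℂ} (h0 : p 0 = 0) (h1 : a * p 1 + b * p 2 = 0)
    (h2 : eval p (Lf m q) = 0) :
    (translate p (X 0 ^ 2 * ((C a * X 1 + C b * X 2) ^ 2 + X 0 * Lf m q))).IsHomogeneous 4 := by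
  have e : translate p (X 0 ^ 2 * ((C a * X 1 + C b * X 2) ^ 2 + X 0 * Lf m q)) =
      X 0 ^ 2 * ((C a * X 1 + C b * X 2) ^ 2 + X 0 * (C (q 0) * X 0 + C (q 1) * X 1 +
        C (q 5) * X 2)) := by
    have c1 : (C a * C (p 1) + C b * C (p 2) : MvPolynomial (Fin 3) ℂ) = 0 := by
      rw [← map_mul, ← map_mul, ← map_add, h1, map_zero]
    have c2 : (C (m 0) + C (q 0) * C (p 0) + C (q 1) * C (p 1) + C (q 5) * C (p 2) :
        MvPolynomial (Fin 3) ℂ) = 0 := by
      have h2' : m 0 + q 0 * p 0 + q 1 * p 1 + q 5 * p 2 = 0 := by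
        simpa [Lf] using h2
      rw [← map_mul, ← map_mul, ← map_mul, ← map_add, ← map_add, ← map_add, h2', map_zero]
    have c0 : (C (p 0) : MvPolynomial (Fin 3) ℂ) = 0 := by rw [h0, map_zero]
    unfold translate Lf
    simp only [map_add, map_mul, map_pow, aeval_X, aeval_C, algebraMap_eq]
    rw [c0] at c2 ⊢
    have c3 : C a * (X 1 + C (p 1)) + C b * (X 2 + C (p 2)) =
        (C a * X 1 + C b * X 2 : MvPolynomial (Fin 3) ℂ) := by
      linear_combination c1
    rw [c3]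
    linear_combination X 0 ^ 3 * c2
  rw [e]
  have l1 : (C a * X 1 + C b * X 2 : MvPolynomial (Fin 3) ℂ).IsHomogeneous 1 :=
    ((isHomogeneous_X _ 1).C_mul _).add ((isHomogeneous_X _ 2).C_mul _)
  have l2 : (C (q 0) * X 0 + C (q 1) * X 1 + C (q 5) * X 2 :
      MvPolynomial (Fin 3) ℂ).IsHomogeneous 1 :=
    (((isHomogeneous_X _ 0).C_mul _).add ((isHomogeneous_X _ 1).C_mul _)).add
      ((isHomogeneous_X _ 2).C_mul _)
  have l3 : ((C a * X 1 + C b * X 2) ^ 2 : MvPolynomial (Fin 3) ℂ).IsHomogeneous 2 := by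
    have := l1.pow 2
    rwa [one_mul] at this
  have l4 : (X 0 * (C (q 0) * X 0 + C (q 1) * X 1 + C (q 5) * X 2) :
      MvPolynomial (Fin 3) ℂ).IsHomogeneous 2 := (isHomogeneous_X _ 0).mul l2
  exact (hX 0 2).mul (l3.add l4)

/-- Two points of tangency. -/
theorem tangent_two {y z y' z' : ℂ} (hne : y ≠ y' ∨ z ≠ z')
    (h0 : m 1 * y + m 2 * z + q 2 * y ^ 2 + q 6 * (y * z) + q 9 * z ^ 2 = 0)
    (h1 : m 1 + 2 * q 2 * y + q 6 * z = 0) (h2 : m 2 + q 6 * y + 2 * q 9 * z = 0)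
    (h1' : m 1 + 2 * q 2 * y' + q 6 * z' = 0) (h2' : m 2 + q 6 * y' + 2 * q 9 * z' = 0) :
    m 1 = 0 ∧ m 2 = 0 ∧ q 6 ^ 2 = 4 * q 2 * q 9 := by
  have a1 : 2 * q 2 * (y - y') + q 6 * (z - z') = 0 := by linear_combination h1 - h1'
  have a2 : q 6 * (y - y') + 2 * q 9 * (z - z') = 0 := by linear_combination h2 - h2'
  have hdet : q 6 ^ 2 = 4 * q 2 * q 9 := by
    rcases hne with h | h
    · have : (y - y') * (q 6 ^ 2 - 4 * q 2 * q 9) = 0 := by
        linear_combination q 6 * a2 - 2 * q 9 * a1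
      have h3 := (mul_eq_zero.1 this).resolve_left (sub_ne_zero.2 h)
      linear_combination h3
    · have : (z - z') * (q 6 ^ 2 - 4 * q 2 * q 9) = 0 := by
        linear_combination q 6 * a1 - 2 * q 2 * a2
      have h3 := (mul_eq_zero.1 this).resolve_left (sub_ne_zero.2 h)
      linear_combination h3
  -- `m 1 * y + m 2 * z = 0`
  have h3 : m 1 * y + m 2 * z = 0 := by linear_combination 2 * h0 - y * h1 - z * h2
  have hm1 : m 1 ^ 2 = 0 := by
    linear_combination (m 1 - 2 * q 2 * y - q 6 * z) * h1 + 4 * q 2 * h0 * 1 -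
      4 * q 2 * h3 + z ^ 2 * hdet
  have hm2 : m 2 ^ 2 = 0 := by
    linear_combination (m 2 - q 6 * y - 2 * q 9 * z) * h2 + 4 * q 9 * h0 * 1 -
      4 * q 9 * h3 + y ^ 2 * hdet
  exact ⟨by simpa using hm1, by simpa using hm2, hdet⟩

theorem T3.quadric (hm : m ≠ 0) (h : T3 (F m q) p) : p 0 = 0 ∧ eval p (Qd m q) = 0 := by
  have h0 := h.x0 hm
  refine ⟨h0, ?_⟩
  have hxx := h.2.2 0 0
  rw [E00, h0] at hxx
  rw [eval_Qd, h0]
  linear_combination (1 / 2 : ℂ) * hxx

variable (h3 : q 3 = 0) (h4 : q 4 = 0) (h7 : q 7 = 0) (h8 : q 8 = 0) (h10 : q 10 = 0)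
  (h11 : q 11 = 0) (h12 : q 12 = 0) (h13 : q 13 = 0) (h14 : q 14 = 0)

include h3 h4 h7 h8 h10 h11 h12 h13 h14

theorem F_eq_Qd : F m q = X 0 ^ 2 * Qd m q := by
  unfold F Qd
  simp only [h3, h4, h7, h8, h10, h11, h12, h13, h14, map_zero]
  ring

theorem cov_nf1 (hm : m ≠ 0) (hn : QG.NoQ (F m q)) (hl : QG.Loc (F m q)) :
    QG.Cov (F m q) (QG.Tr (F m q)) := by
  classical
  have hF := F_eq_Qd h3 h4 h7 h8 h10 h11 h12 h13 h14 (m := m)
  set R : Set (Fin 3 → ℂ) := {p | p 0 = 0 ∧ eval p (Qd m q) = 0 ∧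
    eval p (pderiv 1 (Qd m q)) = 0 ∧ eval p (pderiv 2 (Qd m q)) = 0} with hR
  by_cases hfin : R.Finite
  · have c1 : QG.Cov (F m q) (QG.Tr (F m q) ∩ R) :=
      QG.Cov.finite hl (hfin.subset Set.inter_subset_right) Set.inter_subset_left
    have c2 : QG.Cov (F m q) {p | p 0 = 0 ∧ eval p (Qd m q) = 0 ∧
        (eval p (pderiv 1 (Qd m q)) ≠ 0 ∨ eval p (pderiv 2 (Qd m q)) ≠ 0)} := by
      refine QG.Cov.one constr_smooth ?_
      rw [hF]
      exact good_smooth
    refine (c1.union c2).mono fun p hp => ?_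
    obtain ⟨e0, e1⟩ := T3.quadric hm hp
    by_cases e2 : eval p (pderiv 1 (Qd m q)) = 0
    · by_cases e3 : eval p (pderiv 2 (Qd m q)) = 0
      · exact Or.inl ⟨hp, e0, e1, e2, e3⟩
      · exact Or.inr ⟨e0, e1, Or.inr e3⟩
    · exact Or.inr ⟨e0, e1, Or.inl e2⟩
  · obtain ⟨p, hp, p', hp', hne⟩ := (Set.not_finite.1 hfin).nontrivial
    obtain ⟨hp0, hpQ, hp1, hp2⟩ := hp
    obtain ⟨hp0', -, hp1', hp2'⟩ := hp'
    rw [eval_Qd, hp0] at hpQ
    rw [eval_Qd1, hp0] at hp1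
    rw [eval_Qd2, hp0] at hp2
    rw [eval_Qd1, hp0'] at hp1'
    rw [eval_Qd2, hp0'] at hp2'
    have hne' : p 1 ≠ p' 1 ∨ p 2 ≠ p' 2 := by
      by_contra hcon
      push Not at hcon
      apply hne
      funext i
      fin_cases i
      · exact hp0.trans hp0'.symm
      · exact hcon.1
      · exact hcon.2
    obtain ⟨hm1, hm2, hdet⟩ := tangent_two (m := m) (q := q) hne'
      (by linear_combination hpQ) (by linear_combination hp1) (by linear_combination hp2)
      (by linear_combination hp1') (by linear_combination hp2')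
    obtain ⟨a, b, ha, hab, hb⟩ : ∃ a b : ℂ, q 2 = a ^ 2 ∧ q 6 = 2 * a * b ∧ q 9 = b ^ 2 := by
      obtain ⟨a, ha⟩ := IsAlgClosed.exists_pow_nat_eq (q 2) (n := 2) (by norm_num)
      by_cases h : q 2 = 0
      · obtain ⟨b, hb⟩ := IsAlgClosed.exists_pow_nat_eq (q 9) (n := 2) (by norm_num)
        refine ⟨0, b, by rw [h]; ring, ?_, hb.symm⟩
        rw [h] at hdet
        have : q 6 = 0 := by simpa using hdet
        rw [this]
        ring
      · have ha0 : a ≠ 0 := by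
          rintro rfl
          apply h
          rw [← ha]
          norm_num
        refine ⟨a, q 6 / (2 * a), ha.symm, ?_, ?_⟩
        · field_simp
        · rw [← ha] at hdet
          field_simp
          linear_combination -hdet
    have hF2 : F m q = X 0 ^ 2 * ((C a * X 1 + C b * X 2) ^ 2 + X 0 * Lf m q) := by
      rw [hF]
      unfold Qd Lf
      rw [hm1, hm2, ha, hab, hb]
      simp only [map_zero, map_mul, map_pow, map_ofNat]
      ring
    have hline : ∀ p, T3 (F m q) p → p 0 = 0 ∧ a * p 1 + b * p 2 = 0 ∧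
        eval p (Lf m q) ≠ 0 := by
      intro p hp
      obtain ⟨e0, e1⟩ := T3.quadric hm hp
      rw [eval_Qd, e0, hm1, hm2, ha, hab, hb] at e1
      have e2 : (a * p 1 + b * p 2) ^ 2 = 0 := by linear_combination e1
      have e3 : a * p 1 + b * p 2 = 0 := by simpa using e2
      refine ⟨e0, e3, fun e4 => ?_⟩
      refine noQ_false hn (p := p) ?_
      rw [hF2]
      exact quad_hom e0 e3 e4
    by_cases hab0 : a = 0 ∧ b = 0
    · refine (QG.Cov.one (W := {p | p 0 = 0 ∧ eval p (Lf m q) ≠ 0}) constr_cube ?_).mono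
        fun p hp => ?_
      · rw [hF2, hab0.1, hab0.2]
        have : (X 0 ^ 2 * ((C 0 * X 1 + C 0 * X 2) ^ 2 + X 0 * Lf m q) :
            MvPolynomial (Fin 3) ℂ) = X 0 ^ 2 * (X 0 * Lf m q) := by
          simp only [map_zero]
          ring
        rw [this]
        exact good_cube
      · exact ⟨(hline p hp).1, (hline p hp).2.2⟩
    · refine (QG.Cov.one (W := {p | p 0 = 0 ∧ a * p 1 + b * p 2 = 0 ∧ eval p (Lf m q) ≠ 0})
        constr_tangent ?_).mono hline
      rw [hF2]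
      refine good_tangent ?_
      by_contra hcon
      push Not at hcon
      exact hab0 hcon

end QH

end MPb07157
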