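import Pool.Agent.Lib.MP_b07157_agSE.Deg4
import Pool.Agent.Lib.MP_b07157_agSE.Surf

/-!
# Quartics with infinitely many triple points: semi-quasi-homogeneous strata
-/

noncomputable section

namespace MPb07157

open MvPolynomial

namespace QH

/-- Polynomials which are semi-quasi-homogeneous in the transversal directions `x_0`, `x_1` of a
subset of the line `x_0 = x_1 = 0`. -/
theorem sqhAlong_line {m : ℕ} {f : MvPolynomial (Fin 3) ℂ} {W : Set (Fin 3 → ℂ)} {w : Fin 2 → ℕ}
    {N : ℕ} (hN : 0 < N) (hw : ∀ j, 0 < w j ∧ w j < N) (v : Fin m → Fin 2 → ℕ)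
    (c : Fin m → MvPolynomial (Fin 3) ℂ)
    (hf : f = ∑ i, c i * (X 0 ^ v i 0 * X 1 ^ v i 1))
    (hv : ∀ i, N ≤ w 0 * v i 0 + w 1 * v i 1)
    (hW : ∀ p ∈ W, p 0 = 0 ∧ p 1 = 0)
    (hI : ∀ p ∈ W, ∀ y : Fin 2 → ℂ, y ≠ 0 → ∃ j, eval y (pderiv j
      (∑ i, if w 0 * v i 0 + w 1 * v i 1 = N then
        C (eval p (c i)) * (X 0 ^ v i 0 * X 1 ^ v i 1 : MvPolynomial (Fin 2) ℂ) else 0)) ≠ 0) :
    SqhAlong f W w N := by
  classical
  refine ⟨hN, hw, 1, ![X 0, X 1], ∑ i, C (c i) * (X 0 ^ v i 0 * X 1 ^ v i 1), ?_, ?_, ?_⟩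
  · rw [one_mul, hf, map_sum]
    refine Finset.sum_congr rfl fun i _ => ?_
    simp only [map_mul, map_pow, eval_C, eval_X]
    rfl
  · intro a ha
    have h1 : ∀ i, (C (c i) * (X 0 ^ v i 0 * X 1 ^ v i 1) :
        MvPolynomial (Fin 2) (MvPolynomial (Fin 3) ℂ)) =
        monomial (Finsupp.single 0 (v i 0) + Finsupp.single 1 (v i 1)) (c i) := by
      intro i
      rw [X_pow_eq_monomial, X_pow_eq_monomial, monomial_mul, C_mul_monomial, one_mul, mul_one]
    simp only [h1] at ha
    have h2 := support_sum ha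
    rw [Finset.mem_biUnion] at h2
    obtain ⟨i, _, hi⟩ := h2
    have h3 := support_monomial_subset hi
    rw [Finset.mem_singleton] at h3
    rw [h3, Fin.sum_univ_two]
    simp only [Finsupp.add_apply, Finsupp.single_apply]
    simpa using hv i
  · intro p hp
    obtain ⟨hp0, hp1⟩ := hW p hp
    refine ⟨by simp, fun j => ?_, ?_, fun y hy => ?_⟩
    · fin_cases j
      · simpa using hp0
      · simpa using hp1
    · rw [Fintype.linearIndependent_iff]
      intro g hg j
      have h0 := congrFun hg 0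
      have h1 := congrFun hg 1
      simp [Fin.sum_univ_two, pderiv_X] at h0 h1
      fin_cases j
      · exact h0
      · exact h1
    · obtain ⟨j, hj⟩ := hI p hp y hy
      refine ⟨j, ?_⟩
      have h4 : weightedHomogeneousComponent w N (map (eval p)
          (∑ i, C (c i) * (X 0 ^ v i 0 * X 1 ^ v i 1))) =
          ∑ i, if w 0 * v i 0 + w 1 * v i 1 = N then
            C (eval p (c i)) * (X 0 ^ v i 0 * X 1 ^ v i 1 : MvPolynomial (Fin 2) ℂ) else 0 := by
        rw [map_sum, map_sum]
        refine Finset.sum_congr rfl fun i _ => ?_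
        have h5 : map (eval p) (C (c i) * (X 0 ^ v i 0 * X 1 ^ v i 1)) =
            (C (eval p (c i)) * (X 0 ^ v i 0 * X 1 ^ v i 1) : MvPolynomial (Fin 2) ℂ) := by
          simp only [map_mul, map_pow, map_C, map_X]
        have h6 : IsWeightedHomogeneous w
            (C (eval p (c i)) * (X 0 ^ v i 0 * X 1 ^ v i 1) : MvPolynomial (Fin 2) ℂ)
            (w 0 * v i 0 + w 1 * v i 1) := by
          have h7 := (isWeightedHomogeneous_C w (eval p (c i))).mul
            (((isWeightedHomogeneous_X ℂ w 0).pow (v i 0)).mul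
              ((isWeightedHomogeneous_X ℂ w 1).pow (v i 1)))
          have h8 : 0 + (v i 0 • w 0 + v i 1 • w 1) = w 0 * v i 0 + w 1 * v i 1 := by
            simp only [smul_eq_mul]
            ring
          rwa [h8] at h7
        rw [h5, weightedHomogeneousComponent_of_mem
          ((mem_weightedHomogeneousSubmodule ℂ w _ _).2 h6)]
        by_cases h9 : w 0 * v i 0 + w 1 * v i 1 = N
        · rw [if_pos h9.symm, if_pos h9]
        · rw [if_neg (Ne.symm h9), if_neg h9]
      rw [h4]
      exact hj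

end QH

end MPb07157
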